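import Pool.Agent.Hhelper19.ZQ.Poly

/-!
# Composition of Hoelder maps near the origin
-/

namespace Pool.Agent.ZQ

open Metric

/-- Composition: exponents multiply. -/
theorem comp_holder {g f : E3 → E3} (hg0 : g 0 = 0) (hgc : ContinuousAt g 0) {r1 r2 C1 C2 β α : ℝ}
    (hr1 : 0 < r1) (hr2 : 0 < r2) (hC1 : 0 ≤ C1) (hC2 : 0 ≤ C2) (hβ : 0 < β) (hαβ : α ≤ β * β)
    (hα : 0 < α)
    (hg : ∀ p ∈ ball (0 : E3) r1, ∀ q ∈ ball (0 : E3) r1, dist (g p) (g q) ≤ C1 * dist p q ^ β)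
    (hf : ∀ p ∈ ball (0 : E3) r2, ∀ q ∈ ball (0 : E3) r2, dist (f p) (f q) ≤ C2 * dist p q ^ β) :
    ∃ r : ℝ, 0 < r ∧ ∃ C : ℝ, 0 ≤ C ∧ ∀ p ∈ ball (0 : E3) r, ∀ q ∈ ball (0 : E3) r,
      dist (f (g p)) (f (g q)) ≤ C * dist p q ^ α := by
  have h1 : ∀ᶠ v in nhds (0 : E3), g v ∈ ball (0 : E3) r2 :=
    hgc.preimage_mem_nhds (by rw [hg0]; exact ball_mem_nhds _ hr2)
  obtain ⟨r3, hr3, h3⟩ := eventually_nhds_iff_ball.1 h1
  refine ⟨min (1 / 2) (min r1 r3), by positivity, C2 * C1 ^ β, by positivity, ?_⟩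
  intro p hp q hq
  have hp1 : p ∈ ball (0 : E3) r1 :=
    ball_subset_ball ((min_le_right _ _).trans (min_le_left _ _)) hp
  have hq1 : q ∈ ball (0 : E3) r1 :=
    ball_subset_ball ((min_le_right _ _).trans (min_le_left _ _)) hq
  have hp3 : p ∈ ball (0 : E3) r3 :=
    ball_subset_ball ((min_le_right _ _).trans (min_le_right _ _)) hp
  have hq3 : q ∈ ball (0 : E3) r3 :=
    ball_subset_ball ((min_le_right _ _).trans (min_le_right _ _)) hq
  have hd : dist p q ≤ 1 := by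
    have h4 : dist p 0 < 1 / 2 := lt_of_lt_of_le (mem_ball.1 hp) (min_le_left _ _)
    have h5 : dist q 0 < 1 / 2 := lt_of_lt_of_le (mem_ball.1 hq) (min_le_left _ _)
    have h6 := dist_triangle_right p q 0
    linarith
  have hd0 : 0 ≤ dist p q := dist_nonneg
  calc dist (f (g p)) (f (g q)) ≤ C2 * dist (g p) (g q) ^ β := hf _ (h3 p hp3) _ (h3 q hq3)
    _ ≤ C2 * (C1 * dist p q ^ β) ^ β := by
        refine mul_le_mul_of_nonneg_left ?_ hC2
        exact Real.rpow_le_rpow dist_nonneg (hg p hp1 q hq1) hβ.le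
    _ = C2 * C1 ^ β * dist p q ^ (β * β) := by
        rw [Real.mul_rpow hC1 (Real.rpow_nonneg hd0 _), ← Real.rpow_mul hd0]
        ring
    _ ≤ C2 * C1 ^ β * dist p q ^ α := by
        refine mul_le_mul_of_nonneg_left ?_ (by positivity)
        rcases eq_or_lt_of_le hd0 with h | h
        · rw [← h, Real.zero_rpow hα.ne', Real.zero_rpow (by positivity)]
        · exact Real.rpow_le_rpow_of_exponent_ge h hd hαβ

/-- The homeomorphism between two of the surfaces. -/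
noncomputable def hij {k b i j : ℕ} (hb : 2 ≤ b) (hi : i ≤ k) (hj : j ≤ k) : E3 ≃ₜ E3 :=
  (hh hb hi).symm.trans (hh hb hj)

theorem hh_zero {k b j : ℕ} (hb : 2 ≤ b) (hj : j ≤ k) : hh hb hj 0 = 0 := hf_zero k b j

theorem hh_symm_zero {k b j : ℕ} (hb : 2 ≤ b) (hj : j ≤ k) : (hh hb hj).symm 0 = 0 := by
  rw [Homeomorph.symm_apply_eq, hh_zero]

theorem hij_zero {k b i j : ℕ} (hb : 2 ≤ b) (hi : i ≤ k) (hj : j ≤ k) : hij hb hi hj 0 = 0 := by
  show hh hb hj ((hh hb hi).symm 0) = 0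
  rw [hh_symm_zero, hh_zero]

theorem hh_image {k b j : ℕ} (hb : 2 ≤ b) (hj : j ≤ k) : hh hb hj '' V0 k b = Vj k b j := by
  ext v
  constructor
  · rintro ⟨u, hu, rfl⟩
    exact (mem_iff (by omega) u).1 hu
  · intro hv
    refine ⟨(hh hb hj).symm v, ?_, (hh hb hj).apply_symm_apply v⟩
    rw [mem_iff (k := k) (b := b) (j := j) (by omega)]
    have : hf k b j ((hh hb hj).symm v) = v := (hh hb hj).apply_symm_apply v
    rw [this]
    exact hv

theorem hij_image {k b i j : ℕ} (hb : 2 ≤ b) (hi : i ≤ k) (hj : j ≤ k) :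
    hij hb hi hj '' Vj k b i = Vj k b j := by
  have h1 : (hh hb hi).symm '' Vj k b i = V0 k b := by
    rw [← hh_image hb hi, ← Set.image_comp]
    have : ((hh hb hi).symm ∘ (hh hb hi) : E3 → E3) = id := by
      funext v
      exact (hh hb hi).symm_apply_apply v
    rw [this, Set.image_id]
  have h2 : hij hb hi hj '' Vj k b i = hh hb hj '' ((hh hb hi).symm '' Vj k b i) := by
    rw [← Set.image_comp]
    rfl
  rw [h2, h1, hh_image]

theorem hij_holder {k b i j : ℕ} (hb : 2 ≤ b) (hi : i ≤ k) (hj : j ≤ k) {α β : ℝ} (hα : 0 < α)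
    (hβ0 : 0 < β) (hβ1 : β ≤ 1) (hαβ : α ≤ β * β) (hβ : β * (b + 3) ≤ b - 1) :
    ∃ r : ℝ, 0 < r ∧ ∃ C : ℝ, 0 ≤ C ∧ ∀ p ∈ ball (0 : E3) r, ∀ q ∈ ball (0 : E3) r,
      dist (hij hb hi hj p) (hij hb hi hj q) ≤ C * dist p q ^ α ∧
      dist ((hij hb hi hj).symm p) ((hij hb hi hj).symm q) ≤ C * dist p q ^ α := by
  obtain ⟨r1, hr1, C1, hC1, H1⟩ := hh_holder hb hi hβ0 hβ1 hβ
  obtain ⟨r2, hr2, C2, hC2, H2⟩ := hh_holder hb hj hβ0 hβ1 hβ
  obtain ⟨r3, hr3, C3, hC3, H3⟩ := comp_holder (g := (hh hb hi).symm) (f := hh hb hj)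
    (hh_symm_zero hb hi) (hh hb hi).symm.continuous.continuousAt hr1 hr2 hC1 hC2 hβ0 hαβ hα
    (fun p hp q hq => (H1 p hp q hq).2) (fun p hp q hq => (H2 p hp q hq).1)
  obtain ⟨r4, hr4, C4, hC4, H4⟩ := comp_holder (g := (hh hb hj).symm) (f := hh hb hi)
    (hh_symm_zero hb hj) (hh hb hj).symm.continuous.continuousAt hr2 hr1 hC2 hC1 hβ0 hαβ hα
    (fun p hp q hq => (H2 p hp q hq).2) (fun p hp q hq => (H1 p hp q hq).1)
  refine ⟨min r3 r4, lt_min hr3 hr4, max C3 C4, le_max_of_le_left hC3, ?_⟩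
  intro p hp q hq
  have hd : 0 ≤ dist p q ^ α := Real.rpow_nonneg dist_nonneg α
  constructor
  · refine (H3 p (ball_subset_ball (min_le_left _ _) hp) q
      (ball_subset_ball (min_le_left _ _) hq)).trans ?_
    exact mul_le_mul_of_nonneg_right (le_max_left _ _) hd
  · refine (H4 p (ball_subset_ball (min_le_right _ _) hp) q
      (ball_subset_ball (min_le_right _ _) hq)).trans ?_
    exact mul_le_mul_of_nonneg_right (le_max_right _ _) hd

/-- Choice of the exponent. -/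
theorem exists_exponent {α : ℝ} (hα0 : 0 < α) (hα1 : α < 1) :
    ∃ β : ℝ, 0 < β ∧ β ≤ 1 ∧ α ≤ β * β ∧ ∃ b : ℕ, 2 ≤ b ∧ β * (b + 3) ≤ b - 1 := by
  have h1 : Real.sqrt α < 1 := by
    rw [Real.sqrt_lt' one_pos]
    simpa using hα1
  refine ⟨Real.sqrt α, Real.sqrt_pos.2 hα0, h1.le, (Real.mul_self_sqrt hα0.le).ge, ?_⟩
  set β := Real.sqrt α
  obtain ⟨n, hn⟩ := exists_nat_gt (4 / (1 - β))
  refine ⟨n + 2, by omega, ?_⟩
  rw [div_lt_iff₀ (by linarith)] at hn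
  push_cast
  nlinarith

end Pool.Agent.ZQ
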