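import Pool.Agent.Hhelper19.ZQ.NonHomeo

/-!
# Counting the pieces of the punctured exceptional varieties
-/

namespace Pool.Agent.ZQ

open Finset Filter Topology

/-- The exceptional variety of the `j`-th surface. -/
abbrev Zj (k b j : ℕ) : Set P2 := exceptional (Vj k b j)

theorem preconn_sub {Z S : Set P2} (h : S ⊆ Z) (hS : IsPreconnected S) :
    IsPreconnected ((fun z : Z => (z : P2)) ⁻¹' S) := by
  refine (Topology.IsEmbedding.subtypeVal.isInducing.isPreconnected_image).1 ?_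
  have e : (fun z : Z => (z : P2)) '' ((fun z : Z => (z : P2)) ⁻¹' S) = S := by
    ext y
    constructor
    · rintro ⟨z, hz, rfl⟩
      exact hz
    · intro hy
      exact ⟨⟨y, h hy⟩, hy, rfl⟩
  exact (congrArg IsPreconnected e).mpr hS

theorem OO_mem_Z {k b j : ℕ} (hb : 1 ≤ b) (hj1 : 1 ≤ j) (hj : j ≤ k) : OO ∈ Zj k b j :=
  (mem_Z_iff hb hj1 hj OO).2 (Or.inl ⟨0, by omega, OO_mem_Ln 0⟩)

/-- The punctured exceptional variety has a continuous surjection onto `j + 1` points. -/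
theorem exists_surj {k b j : ℕ} (hb : 1 ≤ b) (hj1 : 1 ≤ j) (hj : j ≤ k) :
    ∃ c : {y : Zj k b j // y ≠ ⟨OO, OO_mem_Z hb hj1 hj⟩} → Fin (j + 1),
      Continuous c ∧ Function.Surjective c := by
  set O' : Zj k b j := ⟨OO, OO_mem_Z hb hj1 hj⟩ with hO'
  -- the closed sets
  let B : Fin (j + 1) → Set P2 := fun i => if i.1 < j then Ln i.1 else Bj k j
  have hB1 : ∀ i : Fin (j + 1), i.1 < j → B i = Ln i.1 := fun i h => if_pos h
  have hB2 : ∀ i : Fin (j + 1), ¬ i.1 < j → B i = Bj k j := fun i h => if_neg h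
  have hBcl : ∀ i, IsClosed (B i) := by
    intro i
    by_cases h : i.1 < j
    · rw [hB1 i h]; exact isClosed_Ln _
    · rw [hB2 i h]; exact isClosed_Bj k hj1
  have hval : Continuous fun y : {y : Zj k b j // y ≠ O'} => (y.1.1 : P2) :=
    continuous_subtype_val.comp continuous_subtype_val
  have hne : ∀ y : {y : Zj k b j // y ≠ O'}, y.1.1 ≠ OO := fun y h => y.2 (Subtype.ext h)
  refine exists_index (fun i => (fun y : {y : Zj k b j // y ≠ O'} => (y.1.1 : P2)) ⁻¹' (B i))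
    (fun i => (hBcl i).preimage hval) ?_ ?_ ?_
  · intro y
    rcases (mem_Z_iff hb hj1 hj y.1.1).1 y.1.2 with ⟨i, hi, h⟩ | h
    · by_cases hij : i < j
      · refine ⟨⟨i, by omega⟩, ?_⟩
        show y.1.1 ∈ B ⟨i, by omega⟩
        rw [hB1 _ hij]
        exact h
      · refine ⟨⟨j, by omega⟩, ?_⟩
        show y.1.1 ∈ B ⟨j, by omega⟩
        rw [hB2 _ (lt_irrefl j)]
        exact mem_Bj_iff.2 (Or.inr ⟨i, by omega, hi, h⟩)
    · refine ⟨⟨j, by omega⟩, ?_⟩
      show y.1.1 ∈ B ⟨j, by omega⟩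
      rw [hB2 _ (lt_irrefl j)]
      exact mem_Bj_iff.2 (Or.inl h)
  · intro i i' y h h'
    have h1 : y.1.1 ∈ B i := h
    have h2 : y.1.1 ∈ B i' := h'
    by_contra hii
    by_cases hi : i.1 < j
    · rw [hB1 i hi] at h1
      by_cases hi' : i'.1 < j
      · rw [hB1 i' hi'] at h2
        exact hne y (Ln_inter_Ln (fun h => hii (Fin.ext h)) h1 h2)
      · rw [hB2 i' hi'] at h2
        exact hne y (Ln_inter_Bj hi h1 h2)
    · rw [hB2 i hi] at h1
      by_cases hi' : i'.1 < j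
      · rw [hB1 i' hi'] at h2
        exact hne y (Ln_inter_Bj hi' h2 h1)
      · apply hii
        apply Fin.ext
        have := i.2
        have := i'.2
        omega
  · intro i
    by_cases hi : i.1 < j
    · have h := l10_mem i.1
      refine ⟨⟨⟨l1 i.1 0, (mem_Z_iff hb hj1 hj _).2 (Or.inl ⟨i.1, by omega, h.1⟩)⟩, ?_⟩, ?_⟩
      · intro h'
        exact h.2 (congrArg Subtype.val h')
      · show l1 i.1 0 ∈ B i
        rw [hB1 i hi]
        exact h.1
    · have h := q20_mem j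
      refine ⟨⟨⟨q2 j 0, (mem_Z_iff hb hj1 hj _).2 (Or.inr h.1)⟩, ?_⟩, ?_⟩
      · intro h'
        exact h.2 (congrArg Subtype.val h')
      · show q2 j 0 ∈ B i
        rw [hB2 i hi]
        exact mem_Bj_iff.2 (Or.inl h.1)

/-- The union of the lines minus a point different from the special point. -/
theorem lines_preconn (k : ℕ) {P : P2} (hP : P ≠ OO) :
    IsPreconnected ((⋃ i ∈ Set.Iio k, Ln i) \ {P}) := by
  have e : (⋃ i ∈ Set.Iio k, Ln i) \ {P} = ⋃ i : Set.Iio k, (Ln i.1 \ {P}) := by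
    ext L
    simp only [Set.mem_iUnion, Set.mem_sdiff, Set.mem_singleton_iff, Subtype.exists, exists_prop]
    constructor
    · rintro ⟨⟨i, hi, h⟩, hL⟩
      exact ⟨i, hi, h, hL⟩
    · rintro ⟨i, hi, h, hL⟩
      exact ⟨⟨i, hi, h⟩, hL⟩
  rw [e]
  by_cases hk : Nonempty (Set.Iio k)
  · refine isPreconnected_iUnion ⟨OO, ?_⟩ (fun i => Ln_preconn i.1 P)
    exact Set.mem_iInter.2 fun i => ⟨OO_mem_Ln i.1, fun h => hP h.symm⟩
  · have : IsEmpty (Set.Iio k) := not_nonempty_iff.1 hk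
    rw [Set.iUnion_of_empty]
    exact isPreconnected_empty

/-- Every punctured exceptional variety is covered by `j + 1` preconnected sets. -/
theorem exists_cover {k b j : ℕ} (hb : 1 ≤ b) (hj1 : 1 ≤ j) (hj : j ≤ k) (Q : Zj k b j) :
    ∃ T : Fin (j + 1) → Set (Zj k b j), (∀ i, IsPreconnected (T i)) ∧ (∀ i, Q ∉ T i) ∧
      ∀ y, y ≠ Q → ∃ i, y ∈ T i := by
  by_cases hQ : (Q : P2) = OO
  · -- puncture at the special point
    let B : Fin (j + 1) → Set P2 := fun i => if i.1 < j then Ln i.1 \ {OO} else Bj k j \ {OO}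
    have hB1 : ∀ i : Fin (j + 1), i.1 < j → B i = Ln i.1 \ {OO} := fun i h => if_pos h
    have hB2 : ∀ i : Fin (j + 1), ¬ i.1 < j → B i = Bj k j \ {OO} := fun i h => if_neg h
    have hBZ : ∀ i, B i ⊆ Zj k b j := by
      intro i L hL
      by_cases h : i.1 < j
      · rw [hB1 i h] at hL
        exact (mem_Z_iff hb hj1 hj L).2 (Or.inl ⟨i.1, by omega, hL.1⟩)
      · rw [hB2 i h] at hL
        rcases mem_Bj_iff.1 hL.1 with h1 | ⟨i', _, h4, h5⟩
        · exact (mem_Z_iff hb hj1 hj L).2 (Or.inr h1)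
        · exact (mem_Z_iff hb hj1 hj L).2 (Or.inl ⟨i', h4, h5⟩)
    have hBp : ∀ i, IsPreconnected (B i) := by
      intro i
      by_cases h : i.1 < j
      · rw [hB1 i h]; exact Ln_preconn i.1 OO
      · rw [hB2 i h]; exact Bj_preconn k j
    have hBO : ∀ i, OO ∉ B i := by
      intro i
      by_cases h : i.1 < j
      · rw [hB1 i h]; exact fun h => h.2 rfl
      · rw [hB2 i h]; exact fun h => h.2 rfl
    refine ⟨fun i => (fun z : Zj k b j => (z : P2)) ⁻¹' (B i), fun i => preconn_sub (hBZ i) (hBp i),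
      ?_, ?_⟩
    · intro i h
      have h' : (Q : P2) ∈ B i := h
      rw [hQ] at h'
      exact hBO i h'
    · intro y hy
      have hyO : (y : P2) ≠ OO := fun h => hy (Subtype.ext (h.trans hQ.symm))
      rcases (mem_Z_iff hb hj1 hj (y : P2)).1 y.2 with ⟨i, hi, h⟩ | h
      · by_cases hij : i < j
        · refine ⟨⟨i, by omega⟩, ?_⟩
          show (y : P2) ∈ B ⟨i, by omega⟩
          rw [hB1 _ hij]
          exact ⟨h, hyO⟩
        · refine ⟨⟨j, by omega⟩, ?_⟩
          show (y : P2) ∈ B ⟨j, by omega⟩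
          rw [hB2 _ (lt_irrefl j)]
          exact ⟨mem_Bj_iff.2 (Or.inr ⟨i, by omega, hi, h⟩), hyO⟩
      · refine ⟨⟨j, by omega⟩, ?_⟩
        show (y : P2) ∈ B ⟨j, by omega⟩
        rw [hB2 _ (lt_irrefl j)]
        exact ⟨mem_Bj_iff.2 (Or.inl h), hyO⟩
  · -- puncture elsewhere
    let B : Fin (j + 1) → Set P2 := fun i =>
      if i.1 < 1 then (⋃ i ∈ Set.Iio k, Ln i) \ {(Q : P2)} else Cj j \ {(Q : P2)}
    have hB1 : ∀ i : Fin (j + 1), i.1 < 1 → B i = (⋃ i ∈ Set.Iio k, Ln i) \ {(Q : P2)} :=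
      fun i h => if_pos h
    have hB2 : ∀ i : Fin (j + 1), ¬ i.1 < 1 → B i = Cj j \ {(Q : P2)} := fun i h => if_neg h
    have hBZ : ∀ i, B i ⊆ Zj k b j := by
      intro i L hL
      by_cases h : i.1 < 1
      · rw [hB1 i h] at hL
        have h1 := hL.1
        simp only [Set.mem_iUnion, Set.mem_Iio, exists_prop] at h1
        obtain ⟨i', hi', h2⟩ := h1
        exact (mem_Z_iff hb hj1 hj L).2 (Or.inl ⟨i', hi', h2⟩)
      · rw [hB2 i h] at hL
        exact (mem_Z_iff hb hj1 hj L).2 (Or.inr hL.1)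
    have hBp : ∀ i, IsPreconnected (B i) := by
      intro i
      by_cases h : i.1 < 1
      · rw [hB1 i h]; exact lines_preconn k hQ
      · rw [hB2 i h]; exact Cj_preconn j _
    have hBO : ∀ i, (Q : P2) ∉ B i := by
      intro i
      by_cases h : i.1 < 1
      · rw [hB1 i h]; exact fun h => h.2 rfl
      · rw [hB2 i h]; exact fun h => h.2 rfl
    refine ⟨fun i => (fun z : Zj k b j => (z : P2)) ⁻¹' (B i), fun i => preconn_sub (hBZ i) (hBp i),
      fun i h => hBO i h, ?_⟩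
    intro y hy
    have hyO : (y : P2) ≠ Q := fun h => hy (Subtype.ext h)
    rcases (mem_Z_iff hb hj1 hj (y : P2)).1 y.2 with ⟨i, hi, h⟩ | h
    · refine ⟨⟨0, by omega⟩, ?_⟩
      show (y : P2) ∈ B ⟨0, by omega⟩
      rw [hB1 _ one_pos]
      refine ⟨?_, hyO⟩
      simp only [Set.mem_iUnion, Set.mem_Iio, exists_prop]
      exact ⟨i, hi, h⟩
    · refine ⟨⟨1, by omega⟩, ?_⟩
      show (y : P2) ∈ B ⟨1, by omega⟩
      rw [hB2 _ (lt_irrefl 1)]
      exact ⟨h, hyO⟩

/-- The exceptional varieties are pairwise not homeomorphic. -/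
theorem not_homeo_lt {k b j j' : ℕ} (hb : 1 ≤ b) (hj1 : 1 ≤ j) (hjj : j < j') (hj' : j' ≤ k)
    (φ : Zj k b j' ≃ₜ Zj k b j) : False := by
  have hj1' : 1 ≤ j' := by omega
  let O' : Zj k b j' := ⟨OO, OO_mem_Z hb hj1' hj'⟩
  have hex : ∃ c : {y : Zj k b j' // y ≠ O'} → Fin (j' + 1),
      Continuous c ∧ Function.Surjective c := exists_surj hb hj1' hj'
  obtain ⟨c, hc, hs⟩ := hex
  obtain ⟨T, hT1, hT2, hT3⟩ := exists_cover (k := k) (b := b) (j := j) hb hj1 (by omega) (φ O')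
  let ψ : {y : Zj k b j // y ≠ φ O'} → {y : Zj k b j' // y ≠ O'} :=
    fun y => ⟨φ.symm y.1, fun h => y.2 ((φ.apply_symm_apply y.1).symm.trans (congrArg φ h))⟩
  have hψ : Continuous ψ :=
    (φ.symm.continuous.comp continuous_subtype_val).subtype_mk _
  have hψs : Function.Surjective ψ := by
    intro y
    refine ⟨⟨φ y.1, fun h => y.2 (φ.injective h)⟩, ?_⟩
    apply Subtype.ext
    show φ.symm (φ y.1) = y.1
    exact φ.symm_apply_apply y.1
  have h := card_le_of_cover (c ∘ ψ) (hc.comp hψ) (hs.comp hψs) T hT1 hT2 hT3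
  omega

theorem not_homeo {k b j j' : ℕ} (hb : 1 ≤ b) (hj1 : 1 ≤ j) (hj : j ≤ k) (hj1' : 1 ≤ j')
    (hj' : j' ≤ k) (hne : j ≠ j') : IsEmpty (Zj k b j ≃ₜ Zj k b j') := by
  constructor
  intro φ
  rcases Nat.lt_or_gt_of_ne hne with h | h
  · exact not_homeo_lt hb hj1 h hj' φ.symm
  · exact not_homeo_lt hb hj1' h hj φ

end Pool.Agent.ZQ
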