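import Mathlib

/-!
# Blowing up a point of three-space: the definitions

`E3` is complex three-space with its usual (product) topology, `P2` the projective plane of lines
through the origin with the quotient topology.
-/

namespace Pool.Agent.ZQ

/-- Complex three-space. -/
abbrev E3 : Type := Fin 3 → ℂ

/-- The projective plane: the set of lines through the origin of `E3`. -/
abbrev P2 : Type := Projectivization ℂ E3

/-- The quotient topology on the projective plane. -/
instance instTopP2 : TopologicalSpace P2 :=
  inferInstanceAs (TopologicalSpace (Quotient (projectivizationSetoid ℂ E3)))

/-- The zero set of a polynomial in three-space. -/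
def zeroSet (F : MvPolynomial (Fin 3) ℂ) : Set E3 := {v | MvPolynomial.eval v F = 0}

/-- The proper transform of `V` in the blow-up `{(v, L) | v ∈ L}` of three-space at the origin:
the closure of the preimage of `V` minus the origin. -/
def properTransform (V : Set E3) : Set (E3 × P2) :=
  closure {q | q.1 ∈ V ∧ q.1 ≠ 0 ∧ q.1 ∈ q.2.submodule}

/-- The exceptional variety: the points of the proper transform over the origin. -/
def exceptional (V : Set E3) : Set P2 := {L | ((0 : E3), L) ∈ properTransform V}

end Pool.Agent.ZQ
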