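import Pool.Agent.Hhelper19.ZQ.Homeo

/-!
# The exceptional varieties
-/

namespace Pool.Agent.ZQ

open Finset Filter Topology

/-- The quotient map. -/
noncomputable def pr (v : {v : E3 // v ≠ 0}) : P2 := Projectivization.mk ℂ v.1 v.2

theorem continuous_pr : Continuous pr := continuous_quotient_mk'

theorem pr_eq_iff (v w : {v : E3 // v ≠ 0}) : pr v = pr w ↔ ∃ a : ℂˣ, a • w.1 = v.1 :=
  Projectivization.mk_eq_mk_iff ℂ _ _ _ _

theorem isOpenMap_pr : IsOpenMap pr := by
  intro U hU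
  have h1 : IsOpen (pr ⁻¹' (pr '' U)) := by
    have h2 : pr ⁻¹' (pr '' U) = ⋃ a : ℂˣ, {v : {v : E3 // v ≠ 0} |
        (⟨a • v.1, by rw [Units.smul_def]; exact smul_ne_zero a.ne_zero v.2⟩ : {v : E3 // v ≠ 0}) ∈ U} := by
      ext v
      constructor
      · rintro ⟨w, hw, hwv⟩
        obtain ⟨a, ha⟩ := (pr_eq_iff w v).1 hwv
        refine Set.mem_iUnion.2 ⟨a, ?_⟩
        show (⟨a • v.1, _⟩ : {v : E3 // v ≠ 0}) ∈ U
        have : (⟨a • v.1, by rw [Units.smul_def]; exact smul_ne_zero a.ne_zero v.2⟩ :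
            {v : E3 // v ≠ 0}) = w := Subtype.ext ha
        rw [this]
        exact hw
      · intro h
        obtain ⟨a, ha⟩ := Set.mem_iUnion.1 h
        refine ⟨_, ha, ?_⟩
        rw [pr_eq_iff]
        exact ⟨a, rfl⟩
    rw [h2]
    refine isOpen_iUnion fun a => ?_
    refine hU.preimage ?_
    refine Continuous.subtype_mk ?_ _
    exact (continuous_const_smul (a : ℂ)).comp continuous_subtype_val
  exact h1

/-- Description of the exceptional variety by sequences of scalar multiples. -/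
theorem mem_exceptional_iff (V : Set E3) (u : {v : E3 // v ≠ 0}) :
    pr u ∈ exceptional V ↔ ∀ ε : ℝ, 0 < ε → ∃ w : E3, w ≠ 0 ∧ ‖w - u.1‖ < ε ∧
      ∃ c : ℂ, c ≠ 0 ∧ ‖c • w‖ < ε ∧ c • w ∈ V := by
  constructor
  · intro h ε hε
    have hopen : IsOpen ((Metric.ball (0 : E3) ε) ×ˢ
        (pr '' {w : {v : E3 // v ≠ 0} | ‖w.1 - u.1‖ < ε})) := by
      refine Metric.isOpen_ball.prod (isOpenMap_pr _ ?_)
      exact isOpen_lt (by fun_prop) continuous_const
    have hmem : ((0 : E3), pr u) ∈ (Metric.ball (0 : E3) ε) ×ˢ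
        (pr '' {w : {v : E3 // v ≠ 0} | ‖w.1 - u.1‖ < ε}) := by
      refine ⟨Metric.mem_ball_self hε, ⟨u, ?_, rfl⟩⟩
      show ‖u.1 - u.1‖ < ε
      rw [sub_self, norm_zero]
      exact hε
    have h1 : ((0 : E3), pr u) ∈ closure
      {q : E3 × P2 | q.1 ∈ V ∧ q.1 ≠ 0 ∧ q.1 ∈ q.2.submodule} := h
    obtain ⟨q, hq1, hq2⟩ := mem_closure_iff.1 h1 _ hopen hmem
    obtain ⟨hqV, hq0, hqs⟩ := hq2
    obtain ⟨hb, ⟨w, hw, hwq⟩⟩ := hq1
    have hs : q.2.submodule = Submodule.span ℂ {w.1} := by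
      rw [← hwq]; rfl
    rw [hs] at hqs
    obtain ⟨c, hc⟩ := Submodule.mem_span_singleton.1 hqs
    refine ⟨w.1, w.2, hw, c, ?_, ?_, ?_⟩
    · rintro rfl
      rw [zero_smul] at hc
      exact hq0 hc.symm
    · rw [hc]
      exact mem_ball_zero_iff.1 hb
    · rw [hc]
      exact hqV
  · intro h
    show ((0 : E3), pr u) ∈ closure {q : E3 × P2 | q.1 ∈ V ∧ q.1 ≠ 0 ∧ q.1 ∈ q.2.submodule}
    rw [mem_closure_iff]
    intro O hO hmem
    -- pull back to a neighbourhood
    have hcont : Continuous fun x : E3 × {v : E3 // v ≠ 0} => (x.1, pr x.2) :=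
      continuous_fst.prodMk (continuous_pr.comp continuous_snd)
    have hO2 : IsOpen ((fun x : E3 × {v : E3 // v ≠ 0} => (x.1, pr x.2)) ⁻¹' O) :=
      hO.preimage hcont
    obtain ⟨ε, hε, hball⟩ := Metric.isOpen_iff.1 hO2 ((0 : E3), u) hmem
    obtain ⟨w, hw0, hw, c, hc0, hc, hcV⟩ := h ε hε
    have hin : ((c • w, (⟨w, hw0⟩ : {v : E3 // v ≠ 0})) : E3 × {v : E3 // v ≠ 0}) ∈
        Metric.ball (((0 : E3), u) : E3 × {v : E3 // v ≠ 0}) ε := by
      rw [Metric.mem_ball, Prod.dist_eq]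
      refine max_lt ?_ ?_
      · show dist (c • w) 0 < ε
        rw [dist_zero_right]
        exact hc
      · show dist (⟨w, hw0⟩ : {v : E3 // v ≠ 0}) u < ε
        rw [Subtype.dist_eq, dist_eq_norm]
        exact hw
    refine ⟨(c • w, pr ⟨w, hw0⟩), hball hin, hcV, smul_ne_zero hc0 hw0, ?_⟩
    show c • w ∈ Submodule.span ℂ {w}
    exact Submodule.smul_mem _ _ (Submodule.mem_span_singleton_self w)

/-! ### Homogeneity -/

theorem PP_smul (s : Finset ℕ) (c y z : ℂ) : PP s (c * y) (c * z) = c ^ s.card * PP s y z := by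
  unfold PP lf
  rw [← prod_const, ← prod_mul_distrib]
  refine prod_congr rfl fun i _ => ?_
  ring

theorem pf_smul (k b : ℕ) (c y z : ℂ) : pf k b (c * y) (c * z) = c ^ (k * (b + 1)) * pf k b y z := by
  unfold pf
  rw [PP_smul, card_range, mul_pow, ← pow_mul]

theorem rf_smul {k b j : ℕ} (hj : j ≤ k) (c y z : ℂ) :
    rf k b j (c * y) (c * z) = c ^ (k * (b + 1) + 1) * rf k b j y z := by
  unfold rf
  rw [PP_smul, PP_smul, card_range, Nat.card_Ico, mul_pow, mul_pow, ← pow_mul]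
  have h : k * (b + 1) + 1 = (j + 1) + (k * b + (k - j)) := by
    have : k * (b + 1) = k * b + k := by ring
    omega
  rw [h, pow_add, pow_add]
  ring

theorem wf_smul (k b : ℕ) (c z : ℂ) : wf k b (c * z) = c ^ (k * (b + 1) + 2) * wf k b z := by
  unfold wf
  rw [mul_pow]

/-- The initial form. -/
noncomputable def gj (k b j : ℕ) (v : E3) : ℂ := v 0 * pf k b (v 1) (v 2) + rf k b j (v 1) (v 2)

theorem continuous_gj (k b j : ℕ) : Continuous (gj k b j) :=
  ((continuous_apply 0).mul (continuous_pf k b)).add (continuous_rf k b j)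

theorem smul_mem_Vj {k b j : ℕ} (hj : j ≤ k) (c : ℂ) (v : E3) :
    c • v ∈ Vj k b j ↔ c ^ (k * (b + 1) + 1) * (gj k b j v + c * wf k b (v 2)) = 0 := by
  have e : c • v ∈ Vj k b j ↔ (c * v 0) * pf k b (c * v 1) (c * v 2)
      + rf k b j (c * v 1) (c * v 2) + wf k b (c * v 2) = 0 := Iff.rfl
  rw [e, pf_smul, rf_smul hj, wf_smul]
  unfold gj
  have : (c * v 0) * (c ^ (k * (b + 1)) * pf k b (v 1) (v 2))
      + c ^ (k * (b + 1) + 1) * rf k b j (v 1) (v 2) + c ^ (k * (b + 1) + 2) * wf k b (v 2)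
      = c ^ (k * (b + 1) + 1) * (v 0 * pf k b (v 1) (v 2) + rf k b j (v 1) (v 2)
        + c * wf k b (v 2)) := by ring
  rw [this]

theorem smul_mem_Vj' {k b j : ℕ} (hj : j ≤ k) {c : ℂ} (hc : c ≠ 0) (v : E3) :
    c • v ∈ Vj k b j ↔ gj k b j v + c * wf k b (v 2) = 0 := by
  rw [smul_mem_Vj hj]
  constructor
  · intro h
    exact (mul_eq_zero.1 h).resolve_left (pow_ne_zero _ hc)
  · intro h
    rw [h, mul_zero]

/-- Points where the initial form does not vanish are dense near points with nonzero last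
coordinate. -/
theorem exists_gj_ne {k b j : ℕ} {u : E3} {ε : ℝ} (hε : 0 < ε) :
    ∃ w : E3, ‖w - u‖ < ε ∧ w 2 = u 2 ∧ gj k b j w ≠ 0 := by
  -- first the second coordinate
  have hfin : {y : ℂ | PP (range k) y (u 2) = 0}.Finite := by
    refine (((range k).image fun i : ℕ => (i : ℂ) * u 2).finite_toSet).subset ?_
    intro y hy
    have hy' : PP (range k) y (u 2) = 0 := hy
    unfold PP at hy'
    obtain ⟨i, hi, h⟩ := prod_eq_zero_iff.1 hy'
    simp only [coe_image, Set.mem_image]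
    refine ⟨i, hi, ?_⟩
    unfold lf at h
    exact (sub_eq_zero.1 h).symm
  obtain ⟨y, hy, hyε⟩ := (hfin.countable.dense_compl ℝ).exists_dist_lt (u 1) (half_pos hε)
  have hpy : pf k b y (u 2) ≠ 0 := pow_ne_zero _ hy
  have hd : Dense ({-(rf k b j y (u 2)) / pf k b y (u 2)}ᶜ : Set ℂ) := dense_compl_singleton _
  obtain ⟨x, hx, hxε⟩ := hd.exists_dist_lt (u 0) (half_pos hε)
  refine ⟨![x, y, u 2], ?_, rfl, ?_⟩
  · refine lt_of_le_of_lt ?_ (half_lt_self hε)
    rw [pi_norm_le_iff_of_nonneg (half_pos hε).le]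
    intro i
    fin_cases i
    · show ‖x - u 0‖ ≤ ε / 2
      rw [← dist_eq_norm, dist_comm]
      exact hxε.le
    · show ‖y - u 1‖ ≤ ε / 2
      rw [← dist_eq_norm, dist_comm]
      exact hyε.le
    · show ‖u 2 - u 2‖ ≤ ε / 2
      rw [sub_self, norm_zero]
      positivity
  · show x * pf k b y (u 2) + rf k b j y (u 2) ≠ 0
    intro h
    apply hx
    rw [Set.mem_singleton_iff, eq_div_iff hpy]
    linear_combination h

/-- The exceptional variety is the zero set of the initial form. -/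
theorem mem_exc_iff {k b j : ℕ} (hj : j ≤ k) (u : {v : E3 // v ≠ 0}) :
    pr u ∈ exceptional (Vj k b j) ↔ gj k b j u.1 = 0 := by
  rw [mem_exceptional_iff]
  constructor
  · intro h
    -- choose sequences
    have h1 : ∀ n : ℕ, ∃ w : E3, w ≠ 0 ∧ ‖w - u.1‖ < 1 / ((n : ℝ) + 1) ∧
        ∃ c : ℂ, c ≠ 0 ∧ ‖c • w‖ < 1 / ((n : ℝ) + 1) ∧ c • w ∈ Vj k b j :=
      fun n => h _ (by positivity)
    choose w hw0 hw c hc0 hc hcV using h1
    have hlim0 : Tendsto (fun n : ℕ => 1 / ((n : ℝ) + 1)) atTop (𝓝 0) :=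
      tendsto_one_div_add_atTop_nhds_zero_nat
    have hwlim : Tendsto w atTop (𝓝 u.1) := by
      rw [tendsto_iff_norm_sub_tendsto_zero]
      exact squeeze_zero (fun _ => norm_nonneg _) (fun n => (hw n).le) hlim0
    have hclim : Tendsto (fun n => c n • w n) atTop (𝓝 0) := by
      rw [tendsto_zero_iff_norm_tendsto_zero]
      exact squeeze_zero (fun _ => norm_nonneg _) (fun n => (hc n).le) hlim0
    have e : ∀ n, gj k b j (w n) = -((c n • w n) 2 * (w n 2) ^ (k * (b + 1) + 1)) := by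
      intro n
      have := (smul_mem_Vj' hj (hc0 n) (w n)).1 (hcV n)
      have e2 : c n * wf k b (w n 2) = (c n • w n) 2 * (w n 2) ^ (k * (b + 1) + 1) := by
        show c n * (w n 2) ^ (k * (b + 1) + 2) = (c n * w n 2) * (w n 2) ^ (k * (b + 1) + 1)
        ring
      rw [← e2]
      linear_combination this
    have t1 : Tendsto (fun n => gj k b j (w n)) atTop (𝓝 (gj k b j u.1)) :=
      ((continuous_gj k b j).tendsto _).comp hwlim
    have t2 : Tendsto (fun n => -((c n • w n) 2 * (w n 2) ^ (k * (b + 1) + 1))) atTop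
        (𝓝 (-((0 : E3) 2 * (u.1 2) ^ (k * (b + 1) + 1)))) := by
      have a1 : Tendsto (fun n => (c n • w n) 2) atTop (𝓝 ((0 : E3) 2)) :=
        ((continuous_apply 2).tendsto _).comp hclim
      have a2 : Tendsto (fun n => w n 2) atTop (𝓝 (u.1 2)) :=
        ((continuous_apply 2).tendsto _).comp hwlim
      exact (a1.mul (a2.pow _)).neg
    have t3 := tendsto_nhds_unique (t1.congr e) t2
    rw [t3]
    show -((0 : ℂ) * _) = 0
    ring
  · intro hg ε hε
    by_cases hu2 : u.1 2 = 0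
    · -- the line lies in the surface
      have hn : 0 < ‖u.1‖ := norm_pos_iff.2 u.2
      refine ⟨u.1, u.2, by rw [sub_self, norm_zero]; exact hε, ((ε / (2 * ‖u.1‖) : ℝ) : ℂ), ?_, ?_, ?_⟩
      · rw [Ne, Complex.ofReal_eq_zero]
        positivity
      · rw [norm_smul, Complex.norm_real, Real.norm_of_nonneg (by positivity)]
        have : ε / (2 * ‖u.1‖) * ‖u.1‖ = ε / 2 := by field_simp
        rw [this]
        linarith
      · rw [smul_mem_Vj hj, hg, hu2]
        unfold wf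
        rw [zero_pow (by omega)]
        ring
    · -- perturb
      have hw2 : wf k b (u.1 2) ≠ 0 := pow_ne_zero _ hu2
      set F : E3 → E3 := fun w => (-(gj k b j w) / wf k b (w 2)) • w with hF
      have hFc : ContinuousAt F u.1 := by
        have c1 : ContinuousAt (fun w : E3 => -(gj k b j w) / wf k b (w 2)) u.1 :=
          ((continuous_gj k b j).neg.continuousAt).div (continuous_wf k b).continuousAt hw2
        exact c1.smul continuousAt_id
      have hF0 : F u.1 = 0 := by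
        show (-(gj k b j u.1) / wf k b (u.1 2)) • u.1 = 0
        rw [hg]
        simp
      have ev1 : ∀ᶠ w in 𝓝 u.1, ‖F w‖ < ε := by
        have : ContinuousAt (fun w => ‖F w‖) u.1 := hFc.norm
        exact this.eventually_lt continuousAt_const (by rw [hF0, norm_zero]; exact hε)
      have ev2 : ∀ᶠ w : E3 in 𝓝 u.1, ‖w - u.1‖ < ε := by
        have : ContinuousAt (fun w : E3 => ‖w - u.1‖) u.1 := by fun_prop
        exact this.eventually_lt continuousAt_const (by rw [sub_self, norm_zero]; exact hε)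
      obtain ⟨r, hr, hball⟩ := Metric.eventually_nhds_iff_ball.1 (ev1.and ev2)
      obtain ⟨w, hwr, hw2u, hgw⟩ := exists_gj_ne (k := k) (b := b) (j := j) (u := u.1) hr
      have hwb : w ∈ Metric.ball u.1 r := by
        rw [Metric.mem_ball, dist_eq_norm]
        exact hwr
      obtain ⟨h1, h2⟩ := hball w hwb
      have hww : wf k b (w 2) ≠ 0 := by rw [hw2u]; exact hw2
      refine ⟨w, ?_, h2, -(gj k b j w) / wf k b (w 2), ?_, h1, ?_⟩
      · rintro rfl
        exact hu2 hw2u.symm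
      · exact div_ne_zero (neg_ne_zero.2 hgw) hww
      · rw [smul_mem_Vj' hj (div_ne_zero (neg_ne_zero.2 hgw) hww)]
        field_simp
        ring

/-- Factorisation of the initial form. -/
theorem gj_eq {k b j : ℕ} (hj : j ≤ k) (v : E3) :
    gj k b j v = PP (range k) (v 1) (v 2) ^ b * PP (Ico j k) (v 1) (v 2)
      * (v 0 * PP (range j) (v 1) (v 2) + v 2 ^ (j + 1)) := by
  unfold gj pf rf
  have h := PP_split hj (v 1) (v 2)
  rw [pow_succ (PP (range k) (v 1) (v 2)) b]
  nth_rewrite 2 [h]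
  ring

theorem gj_zero_iff {k b j : ℕ} (hb : 1 ≤ b) (hj : j ≤ k) (v : E3) :
    gj k b j v = 0 ↔ (∃ i < k, lf i (v 1) (v 2) = 0)
      ∨ v 0 * PP (range j) (v 1) (v 2) + v 2 ^ (j + 1) = 0 := by
  rw [gj_eq hj]
  constructor
  · intro h
    rcases mul_eq_zero.1 h with h1 | h1
    · left
      rcases mul_eq_zero.1 h1 with h2 | h2
      · have h3 := pow_eq_zero_iff (by omega) |>.1 h2
        unfold PP at h3
        obtain ⟨i, hi, hl⟩ := prod_eq_zero_iff.1 h3
        exact ⟨i, mem_range.1 hi, hl⟩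
      · unfold PP at h2
        obtain ⟨i, hi, hl⟩ := prod_eq_zero_iff.1 h2
        exact ⟨i, (mem_Ico.1 hi).2, hl⟩
    · exact Or.inr h1
  · rintro (⟨i, hi, hl⟩ | h)
    · have : PP (range k) (v 1) (v 2) = 0 := by
        unfold PP
        exact prod_eq_zero (mem_range.2 hi) hl
      rw [this, zero_pow (by omega)]
      ring
    · rw [h, mul_zero]

end Pool.Agent.ZQ
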