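import Pool.Agent.Hhelper19.ZQ.Shift

/-!
# The linear forms, the polynomials and the basic estimates
-/

namespace Pool.Agent.ZQ

open Finset

/-- The linear form `y - i z`. -/
noncomputable def lf (i : ℕ) (y z : ℂ) : ℂ := y - (i : ℂ) * z

/-- Product of linear forms. -/
noncomputable def PP (s : Finset ℕ) (y z : ℂ) : ℂ := ∏ i ∈ s, lf i y z

/-- The coefficient of `x`. -/
noncomputable def pf (k b : ℕ) (y z : ℂ) : ℂ := PP (range k) y z ^ (b + 1)

/-- The term which changes the tangent cone. -/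
noncomputable def rf (k b j : ℕ) (y z : ℂ) : ℂ :=
  z ^ (j + 1) * (PP (range k) y z ^ b * PP (Ico j k) y z)

/-- The term of higher order. -/
noncomputable def wf (k b : ℕ) (z : ℂ) : ℂ := z ^ (k * (b + 1) + 2)

/-- The shift. -/
noncomputable def gg (k b j : ℕ) (x y z : ℂ) : ℂ := G x (pf k b y z) (rf k b j y z) (wf k b z)

/-- The scale: the minimum of `|z|` and of the `|y - i z|`. -/
noncomputable def mu : ℕ → ℂ → ℂ → ℝ
  | 0, _, z => ‖z‖
  | (n + 1), y, z => min (mu n y z) ‖lf n y z‖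

theorem mu_le_z (k : ℕ) (y z : ℂ) : mu k y z ≤ ‖z‖ := by
  induction k with
  | zero => exact le_refl _
  | succ n ih => exact (min_le_left _ _).trans ih

theorem mu_le_lf {k i : ℕ} (h : i < k) (y z : ℂ) : mu k y z ≤ ‖lf i y z‖ := by
  induction k with
  | zero => omega
  | succ n ih =>
    rcases Nat.lt_succ_iff_lt_or_eq.1 h with h1 | h1
    · exact (min_le_left _ _).trans (ih h1)
    · subst h1; exact min_le_right _ _

theorem mu_cases (k : ℕ) (y z : ℂ) :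
    mu k y z = ‖z‖ ∨ ∃ i < k, mu k y z = ‖lf i y z‖ := by
  induction k with
  | zero => exact Or.inl rfl
  | succ n ih =>
    rcases min_choice (mu n y z) ‖lf n y z‖ with h | h
    · rcases ih with h1 | ⟨i, hi, h1⟩
      · exact Or.inl (by show min _ _ = _; rw [h, h1])
      · exact Or.inr ⟨i, by omega, by show min _ _ = _; rw [h, h1]⟩
    · exact Or.inr ⟨n, by omega, by show min _ _ = _; rw [h]⟩

theorem mu_pos {k : ℕ} {y z : ℂ} (hz : z ≠ 0) (h : ∀ i < k, lf i y z ≠ 0) : 0 < mu k y z := by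
  rcases mu_cases k y z with h1 | ⟨i, hi, h1⟩
  · rw [h1]; exact norm_pos_iff.2 hz
  · rw [h1]; exact norm_pos_iff.2 (h i hi)

theorem mu_nonneg (k : ℕ) (y z : ℂ) : 0 ≤ mu k y z := by
  rcases mu_cases k y z with h1 | ⟨i, hi, h1⟩ <;> rw [h1] <;> exact norm_nonneg _

theorem lf_sub_le {k i : ℕ} (h : i ≤ k) {y y' z z' : ℂ} {δ : ℝ} (hy : ‖y' - y‖ ≤ δ)
    (hz : ‖z' - z‖ ≤ δ) : ‖lf i y' z' - lf i y z‖ ≤ (k + 1) * δ := by
  have e : lf i y' z' - lf i y z = (y' - y) - (i : ℂ) * (z' - z) := by unfold lf; ring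
  rw [e]
  have hi : (i : ℝ) ≤ k := by exact_mod_cast h
  have hδ : 0 ≤ δ := (norm_nonneg _).trans hy
  calc ‖(y' - y) - (i : ℂ) * (z' - z)‖ ≤ ‖y' - y‖ + ‖(i : ℂ) * (z' - z)‖ := norm_sub_le _ _
    _ = ‖y' - y‖ + i * ‖z' - z‖ := by rw [norm_mul, Complex.norm_natCast]
    _ ≤ δ + k * δ := by gcongr
    _ = _ := by ring

theorem mu_lip (k : ℕ) {y y' z z' : ℂ} {δ : ℝ} (hy : ‖y' - y‖ ≤ δ)
    (hz : ‖z' - z‖ ≤ δ) : mu k y' z' ≤ mu k y z + (k + 1) * δ := by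
  have hδ : 0 ≤ δ := (norm_nonneg _).trans hy
  rcases mu_cases k y z with h1 | ⟨i, hi, h1⟩
  · rw [h1]
    have h2 := mu_le_z k y' z'
    have h3 : ‖z'‖ ≤ ‖z‖ + ‖z' - z‖ := by
      have e : z' = z + (z' - z) := by ring
      calc ‖z'‖ = ‖z + (z' - z)‖ := by rw [← e]
        _ ≤ _ := norm_add_le _ _
    have h4 : (0 : ℝ) ≤ k := Nat.cast_nonneg k
    nlinarith
  · rw [h1]
    have h2 := mu_le_lf hi y' z'
    have h3 : ‖lf i y' z'‖ ≤ ‖lf i y z‖ + ‖lf i y' z' - lf i y z‖ := by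
      have e : lf i y' z' = lf i y z + (lf i y' z' - lf i y z) := by ring
      calc ‖lf i y' z'‖ = ‖lf i y z + (lf i y' z' - lf i y z)‖ := by rw [← e]
        _ ≤ _ := norm_add_le _ _
    have h4 := lf_sub_le hi.le hy hz
    linarith

/-! ### Relative closeness of monomials -/

/-- `M'` is relatively close to `M`. -/
def Near (ε : ℝ) (n : ℕ) (M M' : ℂ) : Prop := ‖M' - M‖ ≤ ((1 + ε) ^ n - 1) * ‖M‖

theorem Near.norm_le {ε : ℝ} {n : ℕ} {M M' : ℂ} (h : Near ε n M M') :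
    ‖M'‖ ≤ (1 + ε) ^ n * ‖M‖ := by
  have e : M' = M + (M' - M) := by ring
  calc ‖M'‖ = ‖M + (M' - M)‖ := by rw [← e]
    _ ≤ ‖M‖ + ‖M' - M‖ := norm_add_le _ _
    _ ≤ ‖M‖ + ((1 + ε) ^ n - 1) * ‖M‖ := by have : ‖M' - M‖ ≤ _ := h; linarith
    _ = _ := by ring

theorem Near.mul {ε : ℝ} (hε : 0 ≤ ε) {n m : ℕ} {M M' W W' : ℂ} (h : Near ε n M M')
    (h' : Near ε m W W') : Near ε (n + m) (M * W) (M' * W') := by
  unfold Near
  have e : M' * W' - M * W = (M' - M) * W' + M * (W' - W) := by ring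
  rw [e]
  have h1 : ‖M' - M‖ ≤ ((1 + ε) ^ n - 1) * ‖M‖ := h
  have h2 : ‖W' - W‖ ≤ ((1 + ε) ^ m - 1) * ‖W‖ := h'
  have h3 := h'.norm_le
  have h4 : 1 ≤ (1 + ε) ^ n := one_le_pow₀ (by linarith)
  calc ‖(M' - M) * W' + M * (W' - W)‖ ≤ ‖M' - M‖ * ‖W'‖ + ‖M‖ * ‖W' - W‖ := by
        refine (norm_add_le _ _).trans ?_
        rw [norm_mul, norm_mul]
    _ ≤ (((1 + ε) ^ n - 1) * ‖M‖) * ((1 + ε) ^ m * ‖W‖) + ‖M‖ * (((1 + ε) ^ m - 1) * ‖W‖) := by
        refine add_le_add ?_ ?_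
        · refine mul_le_mul h1 h3 (norm_nonneg _) ?_
          exact mul_nonneg (by linarith) (norm_nonneg _)
        · exact mul_le_mul_of_nonneg_left h2 (norm_nonneg _)
    _ = ((1 + ε) ^ (n + m) - 1) * ‖M * W‖ := by rw [norm_mul, pow_add]; ring

theorem Near.one (ε : ℝ) : Near ε 0 1 1 := by unfold Near; simp

theorem Near.pow {ε : ℝ} (hε : 0 ≤ ε) {n : ℕ} {M M' : ℂ} (h : Near ε n M M') (e : ℕ) :
    Near ε (n * e) (M ^ e) (M' ^ e) := by
  induction e with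
  | zero => simpa using Near.one ε
  | succ e ih =>
    rw [pow_succ, pow_succ, Nat.mul_succ]
    exact Near.mul hε ih h

theorem Near.prod {ε : ℝ} (hε : 0 ≤ ε) (s : Finset ℕ) {f f' : ℕ → ℂ}
    (h : ∀ i ∈ s, Near ε 1 (f i) (f' i)) : Near ε s.card (∏ i ∈ s, f i) (∏ i ∈ s, f' i) := by
  classical
  induction s using Finset.induction_on with
  | empty => simpa using Near.one ε
  | insert i s hi ih =>
    rw [prod_insert hi, prod_insert hi, card_insert_of_notMem hi, add_comm]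
    exact Near.mul hε (h i (mem_insert_self _ _)) (ih fun i' hi' => h i' (mem_insert_of_mem hi'))

theorem pow_bound {ε : ℝ} (hε : 0 ≤ ε) (hε1 : ε ≤ 1) (n : ℕ) :
    (1 + ε) ^ n - 1 ≤ (2 ^ n - 1) * ε := by
  induction n with
  | zero => simp
  | succ n ih =>
    have h1 : (1 : ℝ) ≤ 2 ^ n := one_le_pow₀ (by norm_num)
    have h2 : (1 + ε) ^ (n + 1) = (1 + ε) ^ n * (1 + ε) := pow_succ _ _
    have h3 : (2 : ℝ) ^ (n + 1) = 2 ^ n * 2 := pow_succ _ _
    rw [h2, h3]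
    have h4 : (1 + ε) ^ n ≤ 1 + (2 ^ n - 1) * ε := by linarith
    have h5 : (1 + ε) ^ n * (1 + ε) ≤ (1 + (2 ^ n - 1) * ε) * (1 + ε) :=
      mul_le_mul_of_nonneg_right h4 (by linarith)
    nlinarith [mul_nonneg (sub_nonneg.2 h1) (mul_nonneg hε (sub_nonneg.2 hε1))]

theorem Near.le {ε : ℝ} (hε : 0 ≤ ε) (hε1 : ε ≤ 1) {n N : ℕ} (hn : n ≤ N) {M M' : ℂ}
    (h : Near ε n M M') : ‖M' - M‖ ≤ (2 ^ N * ε) * ‖M‖ := by
  refine (show ‖M' - M‖ ≤ _ from h).trans (mul_le_mul_of_nonneg_right ?_ (norm_nonneg _))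
  have h1 := pow_bound hε hε1 n
  have h2 : (2 : ℝ) ^ n ≤ 2 ^ N := pow_le_pow_right₀ (by norm_num) hn
  nlinarith

/-! ### Sizes -/

theorem lf_diff (i i' : ℕ) (y z : ℂ) : lf i y z - lf i' y z = ((i' : ℂ) - i) * z := by
  unfold lf; ring

theorem norm_lf_sum {i i' : ℕ} (h : i ≠ i') (y z : ℂ) : ‖z‖ ≤ ‖lf i y z‖ + ‖lf i' y z‖ := by
  have h1 : ‖lf i y z - lf i' y z‖ ≤ ‖lf i y z‖ + ‖lf i' y z‖ := norm_sub_le _ _
  rw [lf_diff, norm_mul] at h1
  have h2 : 1 ≤ ‖((i' : ℂ) - i)‖ := by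
    have h3 : ((i' : ℂ) - i) = (((i' : ℤ) - i : ℤ) : ℂ) := by push_cast; ring
    rw [h3, Complex.norm_intCast]
    have h4 : 1 ≤ |(i' : ℤ) - i| := Int.one_le_abs (by omega)
    exact_mod_cast h4
  have := norm_nonneg z
  nlinarith

theorem PP_lower {s : Finset ℕ} {y z : ℂ} (h : ∀ i ∈ s, ‖z‖ / 2 ≤ ‖lf i y z‖) :
    ‖z‖ ^ s.card ≤ 2 ^ s.card * ‖PP s y z‖ := by
  unfold PP
  rw [norm_prod]
  have h1 : (‖z‖ / 2) ^ s.card ≤ ∏ i ∈ s, ‖lf i y z‖ := by
    rw [← prod_const]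
    exact prod_le_prod (fun i _ => by positivity) h
  rw [div_pow] at h1
  rw [div_le_iff₀ (by positivity)] at h1
  linarith

/-- At most one linear form is small. -/
theorem PP_mu {k : ℕ} {s : Finset ℕ} (hs : s ⊆ range k) (y z : ℂ) :
    mu k y z * ‖z‖ ^ s.card ≤ 2 ^ s.card * (‖z‖ * ‖PP s y z‖) := by
  classical
  by_cases h : ∀ i ∈ s, ‖z‖ / 2 ≤ ‖lf i y z‖
  · have h1 := PP_lower h
    have h2 := mu_le_z k y z
    calc mu k y z * ‖z‖ ^ s.card ≤ ‖z‖ * (2 ^ s.card * ‖PP s y z‖) :=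
          mul_le_mul h2 h1 (by positivity) (norm_nonneg _)
      _ = _ := by ring
  · push Not at h
    obtain ⟨i0, hi0, hlt⟩ := h
    have h1 : ∀ i ∈ s.erase i0, ‖z‖ / 2 ≤ ‖lf i y z‖ := by
      intro i hi
      have h2 := norm_lf_sum (mem_erase.1 hi).1 y z
      linarith
    have h2 := PP_lower h1
    have h3 : PP s y z = lf i0 y z * PP (s.erase i0) y z := by
      unfold PP
      rw [mul_prod_erase s (fun i => lf i y z) hi0]
    have h4 : s.card = (s.erase i0).card + 1 := (card_erase_add_one hi0).symm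
    have h5 := mu_le_lf (mem_range.1 (hs hi0)) y z
    rw [h3, norm_mul, h4, pow_succ, pow_succ]
    have h6 : mu k y z * (‖z‖ ^ (s.erase i0).card * ‖z‖)
        ≤ ‖lf i0 y z‖ * ((2 ^ (s.erase i0).card * ‖PP (s.erase i0) y z‖) * ‖z‖) := by
      refine mul_le_mul h5 ?_ (by positivity) (norm_nonneg _)
      exact mul_le_mul_of_nonneg_right h2 (norm_nonneg _)
    refine h6.trans ?_
    have h7 : 0 ≤ ‖lf i0 y z‖ * ((2 ^ (s.erase i0).card * ‖PP (s.erase i0) y z‖) * ‖z‖) := by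
      positivity
    nlinarith

/-- If the scale is much smaller than `|z|` then the product is small. -/
theorem PP_upper {k : ℕ} {y z : ℂ} (h : mu k y z < ‖z‖ / 2) :
    ‖PP (range k) y z‖ * ‖z‖ ≤ mu k y z * ((2 * k + 1) * ‖z‖) ^ k := by
  classical
  rcases mu_cases k y z with h1 | ⟨i0, hi0, h1⟩
  · rw [h1] at h
    have := norm_nonneg z
    linarith
  · have hz := norm_nonneg z
    have hi0' : (i0 : ℝ) ≤ k := by exact_mod_cast hi0.le
    have hy : ‖y‖ ≤ (k + 1) * ‖z‖ := by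
      have e : y = lf i0 y z + (i0 : ℂ) * z := by unfold lf; ring
      calc ‖y‖ = ‖lf i0 y z + (i0 : ℂ) * z‖ := by rw [← e]
        _ ≤ ‖lf i0 y z‖ + ‖(i0 : ℂ) * z‖ := norm_add_le _ _
        _ = ‖lf i0 y z‖ + i0 * ‖z‖ := by rw [norm_mul, Complex.norm_natCast]
        _ ≤ ‖z‖ + k * ‖z‖ := by
            have : ‖lf i0 y z‖ ≤ ‖z‖ := by rw [← h1]; linarith
            gcongr
        _ = _ := by ring
    have hl : ∀ i ∈ (range k).erase i0, ‖lf i y z‖ ≤ (2 * k + 1) * ‖z‖ := by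
      intro i hi
      have hik : (i : ℝ) ≤ k := by exact_mod_cast (mem_range.1 (mem_erase.1 hi).2).le
      calc ‖lf i y z‖ ≤ ‖y‖ + ‖(i : ℂ) * z‖ := norm_sub_le _ _
        _ = ‖y‖ + i * ‖z‖ := by rw [norm_mul, Complex.norm_natCast]
        _ ≤ (k + 1) * ‖z‖ + k * ‖z‖ := by gcongr
        _ = _ := by ring
    have h3 : PP (range k) y z = lf i0 y z * PP ((range k).erase i0) y z := by
      unfold PP
      rw [mul_prod_erase (range k) (fun i => lf i y z) (mem_range.2 hi0)]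
    have h4 : ‖PP ((range k).erase i0) y z‖ ≤ ((2 * k + 1) * ‖z‖) ^ (k - 1) := by
      unfold PP
      rw [norm_prod]
      calc ∏ i ∈ (range k).erase i0, ‖lf i y z‖ ≤ ∏ _i ∈ (range k).erase i0, ((2 * k + 1) * ‖z‖) :=
            prod_le_prod (fun i _ => norm_nonneg _) hl
        _ = ((2 * k + 1) * ‖z‖) ^ (k - 1) := by
            rw [prod_const, card_erase_of_mem (mem_range.2 hi0), card_range]
    rw [h3, norm_mul, ← h1, mul_assoc]
    refine mul_le_mul_of_nonneg_left ?_ (mu_nonneg _ _ _)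
    obtain ⟨k', rfl⟩ : ∃ k', k = k' + 1 := ⟨k - 1, by omega⟩
    rw [pow_succ]
    simp only [Nat.add_sub_cancel] at h4
    refine mul_le_mul h4 ?_ (norm_nonneg _) (by positivity)
    have : (0 : ℝ) ≤ ((k' + 1 : ℕ) : ℝ) := Nat.cast_nonneg _
    nlinarith

theorem PP_split {j k : ℕ} (h : j ≤ k) (y z : ℂ) :
    PP (range k) y z = PP (range j) y z * PP (Ico j k) y z := by
  unfold PP
  rw [← prod_range_mul_prod_Ico _ h]

/-- The size of the shift. -/
theorem D_mu {k b j : ℕ} (hj : j ≤ k) (y z : ℂ) (hp : pf k b y z ≠ 0) :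
    ‖rf k b j y z / pf k b y z‖ * mu k y z ≤ 2 ^ k * ‖z‖ ^ 2 := by
  have hP : PP (range k) y z ≠ 0 := by
    intro h
    apply hp
    unfold pf
    rw [h]
    simp
  have hPj : PP (range j) y z ≠ 0 := by
    intro h
    apply hP
    rw [PP_split hj, h, zero_mul]
  have hPi : PP (Ico j k) y z ≠ 0 := by
    intro h
    apply hP
    rw [PP_split hj, h, mul_zero]
  have e : rf k b j y z / pf k b y z = z ^ (j + 1) / PP (range j) y z := by
    unfold rf pf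
    rw [div_eq_div_iff (pow_ne_zero _ hP) hPj, pow_succ (PP (range k) y z) b]
    nth_rewrite 3 [PP_split hj]
    ring
  rw [e, norm_div, norm_pow, div_mul_eq_mul_div, div_le_iff₀ (norm_pos_iff.2 hPj)]
  have h1 := PP_mu (s := range j) (range_subset_range.2 hj) y z
  rw [card_range] at h1
  have h2 : (2 : ℝ) ^ j ≤ 2 ^ k := pow_le_pow_right₀ (by norm_num) hj
  calc ‖z‖ ^ (j + 1) * mu k y z = ‖z‖ * (mu k y z * ‖z‖ ^ j) := by ring
    _ ≤ ‖z‖ * (2 ^ j * (‖z‖ * ‖PP (range j) y z‖)) :=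
        mul_le_mul_of_nonneg_left h1 (norm_nonneg _)
    _ = 2 ^ j * (‖z‖ ^ 2 * ‖PP (range j) y z‖) := by ring
    _ ≤ 2 ^ k * (‖z‖ ^ 2 * ‖PP (range j) y z‖) := by gcongr
    _ = _ := by ring

end Pool.Agent.ZQ
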