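import Pool.Agent.Hhelper19.ZQ.Forms

/-!
# Hoelder continuity of the shift
-/

namespace Pool.Agent.ZQ

open Finset

theorem z_ne_of_gg {k b j : ℕ} {x y z : ℂ} (h : gg k b j x y z ≠ 0) : z ≠ 0 := by
  have h1 := r_ne_of_G_ne h
  rintro rfl
  apply h1
  unfold rf
  rw [zero_pow (by omega), zero_mul]

theorem lf_ne_of_gg {k b j : ℕ} {x y z : ℂ} (h : gg k b j x y z ≠ 0) :
    ∀ i < k, lf i y z ≠ 0 := by
  have h1 := p_ne_of_G_ne h
  intro i hi h2
  apply h1
  unfold pf PP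
  rw [prod_eq_zero (mem_range.2 hi) h2, zero_pow (by omega)]

theorem mu_pos_of_gg {k b j : ℕ} {x y z : ℂ} (h : gg k b j x y z ≠ 0) : 0 < mu k y z :=
  mu_pos (z_ne_of_gg h) (lf_ne_of_gg h)

/-- The basic estimate on the support of the shift, with natural exponents. -/
theorem support_bound {k b j : ℕ} (hb : 2 ≤ b) (hj : j ≤ k) {X : ℝ} (hX : 1 ≤ X) :
    ∃ r0 : ℝ, 0 < r0 ∧ r0 ≤ 1 ∧ ∃ C : ℝ, 1 ≤ C ∧ ∀ x y z : ℂ, ‖x‖ ≤ X → ‖z‖ ≤ r0 →
      gg k b j x y z ≠ 0 →
      ‖rf k b j y z / pf k b y z‖ ^ (b + 3) ≤ C * mu k y z ^ (b - 1) := by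
  set K : ℝ := 2 * k + 1 with hK
  have hK1 : 1 ≤ K := by
    have : (0 : ℝ) ≤ k := Nat.cast_nonneg k
    linarith
  set C1 : ℝ := 2 * K ^ (k * (b + 1)) with hC1
  have hC11 : 1 ≤ C1 := by
    have : (1 : ℝ) ≤ K ^ (k * (b + 1)) := one_le_pow₀ hK1
    linarith
  set T : ℝ := 2 ^ k with hT
  have hT1 : 1 ≤ T := one_le_pow₀ (by norm_num)
  set C3 : ℝ := 3 * C1 * T * T ^ b with hC3
  have hC31 : 1 ≤ C3 := by
    have h1 : (1 : ℝ) ≤ T ^ b := one_le_pow₀ hT1
    have h2 : (1 : ℝ) ≤ 3 * C1 := by linarith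
    have h3 : (1 : ℝ) ≤ 3 * C1 * T := by nlinarith
    nlinarith
  set C4 : ℝ := T ^ (b + 3) * (3 * X * C1) ^ 2 with hC4
  set C5 : ℝ := (4 * T) ^ (b + 3) with hC5
  have hC51 : 1 ≤ C5 := one_le_pow₀ (by linarith)
  have hC40 : 0 ≤ C4 := by positivity
  refine ⟨1 / (2 * C3), by positivity, ?_, C4 + C5, by linarith, ?_⟩
  · rw [div_le_one (by positivity)]
    linarith
  intro x y z hx hz hg
  have hz0 := z_ne_of_gg hg
  have hm := mu_pos_of_gg hg
  have hp := p_ne_of_G_ne hg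
  have hS := norm_w_le_of_G_ne hg
  have hD := D_mu (b := b) hj y z hp
  set D : ℝ := ‖rf k b j y z / pf k b y z‖ with hDdef
  set m : ℝ := mu k y z with hmdef
  set t : ℝ := ‖z‖ with htdef
  have ht : 0 < t := norm_pos_iff.2 hz0
  have hmt : m ≤ t := mu_le_z k y z
  have hr01 : 1 / (2 * C3) ≤ 1 := by
    rw [div_le_one (by positivity)]
    linarith
  have ht1 : t ≤ 1 := hz.trans hr01
  have hm1 : m ≤ 1 := hmt.trans ht1
  have hD0 : 0 ≤ D := norm_nonneg _
  by_cases hcase : t / 2 ≤ m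
  · -- the scale is comparable to `|z|`
    have h1 : D ≤ 4 * T * m := by
      have h2 : t ^ 2 ≤ (2 * m) ^ 2 := pow_le_pow_left₀ ht.le (by linarith) 2
      have h3 : D * m ≤ T * (2 * m) ^ 2 := hD.trans (mul_le_mul_of_nonneg_left h2 (by positivity))
      have h4 : D * m ≤ (4 * T * m) * m := by nlinarith
      exact le_of_mul_le_mul_right h4 hm
    calc D ^ (b + 3) ≤ (4 * T * m) ^ (b + 3) := pow_le_pow_left₀ hD0 h1 _
      _ = C5 * m ^ (b + 3) := by rw [mul_pow]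
      _ ≤ C5 * m ^ (b - 1) := by
          refine mul_le_mul_of_nonneg_left ?_ (by linarith)
          exact pow_le_pow_of_le_one hm.le hm1 (by omega)
      _ ≤ (C4 + C5) * m ^ (b - 1) := by
          refine mul_le_mul_of_nonneg_right (by linarith) (by positivity)
  · push Not at hcase
    have hU := PP_upper (k := k) (y := y) (z := z) hcase
    have hN : ‖wf k b z‖ = t ^ (k * (b + 1) + 2) := by unfold wf; rw [norm_pow]
    have hpn : ‖pf k b y z‖ = ‖PP (range k) y z‖ ^ (b + 1) := by unfold pf; rw [norm_pow]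
    rw [hN, hpn] at hS
    -- multiply by `t ^ (b + 1)`
    have h1 : t ^ (k * (b + 1)) * t ^ (b + 3) ≤ t ^ (k * (b + 1)) * (C1 * m ^ (b + 1) * (X + 2 * D)) := by
      calc t ^ (k * (b + 1)) * t ^ (b + 3) = t ^ (k * (b + 1) + 2) * t ^ (b + 1) := by ring
        _ ≤ (2 * ‖PP (range k) y z‖ ^ (b + 1) * (‖x‖ + 2 * D)) * t ^ (b + 1) :=
            mul_le_mul_of_nonneg_right hS (by positivity)
        _ = 2 * (‖PP (range k) y z‖ * t) ^ (b + 1) * (‖x‖ + 2 * D) := by rw [mul_pow]; ring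
        _ ≤ 2 * (m * (K * t) ^ k) ^ (b + 1) * (X + 2 * D) := by
            gcongr
        _ = t ^ (k * (b + 1)) * (C1 * m ^ (b + 1) * (X + 2 * D)) := by
            rw [mul_pow, mul_pow, mul_pow, ← pow_mul, ← pow_mul, hC1]; ring
    have h2 : t ^ (b + 3) ≤ C1 * m ^ (b + 1) * (X + 2 * D) :=
      le_of_mul_le_mul_left h1 (by positivity)
    have h3 : D ≤ X := by
      by_contra hcon
      push Not at hcon
      have h4 : t ^ (b + 3) ≤ 3 * C1 * T * m ^ b * t ^ 2 := by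
        calc t ^ (b + 3) ≤ C1 * m ^ (b + 1) * (X + 2 * D) := h2
          _ ≤ C1 * m ^ (b + 1) * (3 * D) := by gcongr; linarith
          _ = 3 * C1 * m ^ b * (D * m) := by ring
          _ ≤ 3 * C1 * m ^ b * (T * t ^ 2) := by gcongr
          _ = _ := by ring
      have h5 : m ≤ T * t ^ 2 := by
        have : m ≤ D * m := by nlinarith
        exact this.trans hD
      have h6 : t ^ (b + 1) * t ^ 2 ≤ (C3 * t ^ (2 * b)) * t ^ 2 := by
        calc t ^ (b + 1) * t ^ 2 = t ^ (b + 3) := by ring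
          _ ≤ 3 * C1 * T * m ^ b * t ^ 2 := h4
          _ ≤ 3 * C1 * T * (T * t ^ 2) ^ b * t ^ 2 := by gcongr
          _ = _ := by rw [hC3, mul_pow, ← pow_mul]; ring
      have h7 : t ^ (b + 1) ≤ C3 * t ^ (2 * b) := le_of_mul_le_mul_right h6 (by positivity)
      obtain ⟨b', rfl⟩ : ∃ b', b = b' + 2 := ⟨b - 2, by omega⟩
      have h8 : t ^ (b' + 3) * 1 ≤ t ^ (b' + 3) * (C3 * t ^ (b' + 1)) := by
        calc t ^ (b' + 3) * 1 = t ^ (b' + 2 + 1) := by ring
          _ ≤ C3 * t ^ (2 * (b' + 2)) := h7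
          _ = _ := by ring
      have h9 : 1 ≤ C3 * t ^ (b' + 1) := le_of_mul_le_mul_left h8 (by positivity)
      have h10 : t ^ (b' + 1) ≤ t := by
        calc t ^ (b' + 1) ≤ t ^ 1 := pow_le_pow_of_le_one ht.le ht1 (by omega)
          _ = t := pow_one t
      have h11 : C3 * t ≤ 1 / 2 := by
        calc C3 * t ≤ C3 * (1 / (2 * C3)) := mul_le_mul_of_nonneg_left hz (by linarith)
          _ = 1 / 2 := by field_simp
      nlinarith
    have h4 : t ^ (b + 3) ≤ 3 * X * C1 * m ^ (b + 1) := by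
      calc t ^ (b + 3) ≤ C1 * m ^ (b + 1) * (X + 2 * D) := h2
        _ ≤ C1 * m ^ (b + 1) * (X + 2 * X) := by gcongr
        _ = _ := by ring
    have h5 : D ^ (b + 3) * m ^ (b + 3) ≤ (C4 * m ^ (b - 1)) * m ^ (b + 3) := by
      calc D ^ (b + 3) * m ^ (b + 3) = (D * m) ^ (b + 3) := by rw [mul_pow]
        _ ≤ (T * t ^ 2) ^ (b + 3) := pow_le_pow_left₀ (by positivity) hD _
        _ = T ^ (b + 3) * (t ^ (b + 3)) ^ 2 := by rw [mul_pow, pow_right_comm t]
        _ ≤ T ^ (b + 3) * (3 * X * C1 * m ^ (b + 1)) ^ 2 := by gcongr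
        _ = C4 * (m ^ (b - 1) * m ^ (b + 3)) := by
            rw [hC4, ← pow_add]
            have : b - 1 + (b + 3) = (b + 1) * 2 := by omega
            rw [this, pow_mul]
            ring
        _ = _ := by ring
    have h6 : D ^ (b + 3) ≤ C4 * m ^ (b - 1) := le_of_mul_le_mul_right h5 (by positivity)
    calc D ^ (b + 3) ≤ C4 * m ^ (b - 1) := h6
      _ ≤ (C4 + C5) * m ^ (b - 1) := mul_le_mul_of_nonneg_right (by linarith) (by positivity)

/-- The basic estimate with a real exponent. -/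
theorem support_rpow {k b j : ℕ} (hb : 2 ≤ b) (hj : j ≤ k) {X : ℝ} (hX : 1 ≤ X) {α : ℝ}
    (hα : α * (b + 3) ≤ b - 1) :
    ∃ r0 : ℝ, 0 < r0 ∧ r0 ≤ 1 ∧ ∃ C : ℝ, 1 ≤ C ∧ ∀ x y z : ℂ, ‖x‖ ≤ X → ‖z‖ ≤ r0 →
      gg k b j x y z ≠ 0 →
      ‖rf k b j y z / pf k b y z‖ ≤ C * mu k y z ^ α := by
  obtain ⟨r0, hr0, hr01, C, hC, H⟩ := support_bound (k := k) (b := b) (j := j) hb hj hX
  refine ⟨r0, hr0, hr01, C, hC, ?_⟩
  intro x y z hx hz hg
  have h1 := H x y z hx hz hg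
  have hm := mu_pos_of_gg hg
  have hm1 : mu k y z ≤ 1 := (mu_le_z k y z).trans (hz.trans hr01)
  set m := mu k y z
  set D := ‖rf k b j y z / pf k b y z‖
  have hmα : 0 < m ^ α := Real.rpow_pos_of_pos hm α
  refine le_of_pow_le_pow_left₀ (n := b + 3) (by omega) (by positivity) ?_
  refine h1.trans ?_
  rw [mul_pow]
  have h2 : C ≤ C ^ (b + 3) := le_self_pow₀ hC (by omega)
  have h3 : m ^ (b - 1) ≤ (m ^ α) ^ (b + 3) := by
    rw [← Real.rpow_natCast (m ^ α), ← Real.rpow_mul hm.le, ← Real.rpow_natCast m]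
    refine Real.rpow_le_rpow_of_exponent_ge hm hm1 ?_
    push_cast [Nat.cast_sub (show 1 ≤ b by omega)]
    linarith
  exact mul_le_mul h2 h3 (by positivity) (by positivity)

theorem rpow_scale {K δ α : ℝ} (hK : 1 ≤ K) (hδ : 0 ≤ δ) (hα1 : α ≤ 1) :
    (K * δ) ^ α ≤ K * δ ^ α := by
  rw [Real.mul_rpow (by linarith) hδ]
  refine mul_le_mul_of_nonneg_right ?_ (Real.rpow_nonneg hδ _)
  calc K ^ α ≤ K ^ (1 : ℝ) := Real.rpow_le_rpow_of_exponent_le hK hα1
    _ = K := Real.rpow_one K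

/-- Relative closeness of the coefficients. -/
theorem near_coeffs {k b j : ℕ} (hj : j ≤ k) {y y' z z' : ℂ} {ε : ℝ} (hε : 0 ≤ ε) (hε1 : ε ≤ 1)
    (hl : ∀ i < k, ‖lf i y' z' - lf i y z‖ ≤ ε * ‖lf i y z‖) (hz : ‖z' - z‖ ≤ ε * ‖z‖) :
    ‖pf k b y' z' - pf k b y z‖ ≤ (2 ^ (k * (b + 1) + 2) * ε) * ‖pf k b y z‖ ∧
    ‖rf k b j y' z' - rf k b j y z‖ ≤ (2 ^ (k * (b + 1) + 2) * ε) * ‖rf k b j y z‖ ∧
    ‖wf k b z' - wf k b z‖ ≤ (2 ^ (k * (b + 1) + 2) * ε) * ‖wf k b z‖ := by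
  have hL : ∀ i < k, Near ε 1 (lf i y z) (lf i y' z') := by
    intro i hi
    unfold Near
    simpa using hl i hi
  have hZ : Near ε 1 z z' := by unfold Near; simpa using hz
  have hP : Near ε k (PP (range k) y z) (PP (range k) y' z') := by
    have := Near.prod hε (range k) (f := fun i => lf i y z) (f' := fun i => lf i y' z')
      (fun i hi => hL i (mem_range.1 hi))
    rwa [card_range] at this
  have hP2 : Near ε (k - j) (PP (Ico j k) y z) (PP (Ico j k) y' z') := by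
    have := Near.prod hε (Ico j k) (f := fun i => lf i y z) (f' := fun i => lf i y' z')
      (fun i hi => hL i (mem_Ico.1 hi).2)
    rwa [Nat.card_Ico] at this
  refine ⟨?_, ?_, ?_⟩
  · exact Near.le hε hε1 (by omega) (Near.pow hε hP (b + 1))
  · have h1 := Near.mul hε (Near.pow hε hZ (j + 1)) (Near.mul hε (Near.pow hε hP b) hP2)
    refine Near.le hε hε1 ?_ h1
    have : k * (b + 1) = k * b + k := by ring
    omega
  · have h1 := Near.pow hε hZ (k * (b + 1) + 2)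
    exact Near.le hε hε1 (by omega) h1

theorem gg_x (k b j : ℕ) (x x' y z : ℂ) :
    ‖gg k b j x y z - gg k b j x' y z‖ ≤ 1 / 2 * ‖x - x'‖ := G_lipschitz _ _ _ _ _

/-- Hoelder estimate for the shift. -/
theorem gg_holder {k b j : ℕ} (hb : 2 ≤ b) (hj : j ≤ k) {X : ℝ} (hX : 1 ≤ X) {α : ℝ}
    (hα0 : 0 ≤ α) (hα1 : α ≤ 1) (hα : α * (b + 3) ≤ b - 1) :
    ∃ r0 : ℝ, 0 < r0 ∧ r0 ≤ 1 ∧ ∃ C : ℝ, 1 ≤ C ∧ ∀ x x' y y' z z' : ℂ, ∀ δ : ℝ,
      ‖x‖ ≤ X → ‖x'‖ ≤ X → ‖z‖ ≤ r0 → ‖z'‖ ≤ r0 → ‖y' - y‖ ≤ δ → ‖z' - z‖ ≤ δ →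
      ‖gg k b j x y z - gg k b j x' y' z'‖ ≤ 1 / 2 * ‖x - x'‖ + C * δ ^ α := by
  obtain ⟨r0, hr0, hr01, C, hC, H⟩ := support_rpow (k := k) (b := b) (j := j) hb hj hX hα
  set M : ℝ := 2 ^ (k * (b + 1) + 2) with hM
  have hM1 : 1 ≤ M := one_le_pow₀ (by norm_num)
  have hk0 : (0 : ℝ) ≤ k := Nat.cast_nonneg k
  set Q : ℝ := 5 * M * (k + 1) with hQ
  have hQ1 : 1 ≤ Q := by nlinarith
  -- one-sided version
  have key : ∀ x x' y y' z z' : ℂ, ∀ δ : ℝ,
      ‖x‖ ≤ X → ‖x'‖ ≤ X → ‖z‖ ≤ r0 → ‖z'‖ ≤ r0 → ‖y' - y‖ ≤ δ → ‖z' - z‖ ≤ δ →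
      gg k b j x y z ≠ 0 →
      ‖gg k b j x y z - gg k b j x' y' z'‖ ≤ 1 / 2 * ‖x - x'‖ + (19 * C * Q) * δ ^ α := by
    intro x x' y y' z z' δ hx hx' hz hz' hy hzz hg
    have hδ : 0 ≤ δ := (norm_nonneg _).trans hy
    have hm := mu_pos_of_gg hg
    have hD := H x y z hx hz hg
    set m := mu k y z with hmdef
    have hδα : 0 ≤ δ ^ α := Real.rpow_nonneg hδ α
    by_cases hcase : 4 * M * (k + 1) * δ ≤ m
    · -- close points
      set ε : ℝ := (k + 1) * δ / m with hε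
      have hε0 : 0 ≤ ε := by positivity
      have hε2 : M * ε ≤ 1 / 4 := by
        rw [hε, ← mul_div_assoc, div_le_iff₀ hm]
        linarith
      have hε1 : ε ≤ 1 := by nlinarith
      have hεm : ε * m = (k + 1) * δ := by rw [hε]; field_simp
      have hl : ∀ i < k, ‖lf i y' z' - lf i y z‖ ≤ ε * ‖lf i y z‖ := by
        intro i hi
        calc ‖lf i y' z' - lf i y z‖ ≤ (k + 1) * δ := lf_sub_le hi.le hy hzz
          _ = ε * m := hεm.symm
          _ ≤ ε * ‖lf i y z‖ := mul_le_mul_of_nonneg_left (mu_le_lf hi y z) hε0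
      have hzε : ‖z' - z‖ ≤ ε * ‖z‖ := by
        calc ‖z' - z‖ ≤ δ := hzz
          _ ≤ (k + 1) * δ := by nlinarith
          _ = ε * m := hεm.symm
          _ ≤ ε * ‖z‖ := mul_le_mul_of_nonneg_left (mu_le_z k y z) hε0
      obtain ⟨n1, n2, n3⟩ := near_coeffs (b := b) hj hε0 hε1 hl hzε
      have h1 := G_diff (x := x) (x' := x') (η := M * ε) (by positivity) hε2 hg n1 n2 n3
      refine h1.trans ?_
      have h2 : (M * ε) * ‖rf k b j y z / pf k b y z‖ ≤ (C * Q) * δ ^ α := by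
        have h3 : δ / m ≤ (δ / m) ^ α := by
          have h4 : δ / m ≤ 1 := by
            rw [div_le_one hm]
            have : 1 ≤ 4 * M * (k + 1) := by nlinarith
            nlinarith
          rcases eq_or_lt_of_le (div_nonneg hδ hm.le) with h5 | h5
          · rw [← h5]; exact Real.rpow_nonneg (le_refl _) _
          · calc δ / m = (δ / m) ^ (1 : ℝ) := (Real.rpow_one _).symm
              _ ≤ (δ / m) ^ α := Real.rpow_le_rpow_of_exponent_ge h5 h4 hα1
        have h5 : m ^ α * (δ / m) ^ α = δ ^ α := by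
          rw [← Real.mul_rpow hm.le (by positivity)]
          congr 1
          field_simp
        calc (M * ε) * ‖rf k b j y z / pf k b y z‖ ≤ (M * ε) * (C * m ^ α) := by gcongr
          _ = (M * (k + 1) * C) * (m ^ α * (δ / m)) := by rw [hε]; ring
          _ ≤ (M * (k + 1) * C) * (m ^ α * (δ / m) ^ α) := by gcongr
          _ = (M * (k + 1) * C) * δ ^ α := by rw [h5]
          _ ≤ (C * Q) * δ ^ α := by
              refine mul_le_mul_of_nonneg_right ?_ hδα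
              rw [hQ]
              have : 0 ≤ M * (k + 1) * C := by positivity
              nlinarith
      calc 1 / 2 * ‖x - x'‖ + 19 * (M * ε) * ‖rf k b j y z / pf k b y z‖
          = 1 / 2 * ‖x - x'‖ + 19 * ((M * ε) * ‖rf k b j y z / pf k b y z‖) := by ring
        _ ≤ 1 / 2 * ‖x - x'‖ + 19 * ((C * Q) * δ ^ α) := by gcongr
        _ = _ := by ring
    · push Not at hcase
      have h1 : ‖gg k b j x y z‖ ≤ (C * Q) * δ ^ α := by
        calc ‖gg k b j x y z‖ ≤ ‖rf k b j y z / pf k b y z‖ := norm_G_le _ _ _ _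
          _ ≤ C * m ^ α := hD
          _ ≤ C * (Q * δ) ^ α := by
              refine mul_le_mul_of_nonneg_left ?_ (by linarith)
              refine Real.rpow_le_rpow hm.le ?_ hα0
              rw [hQ]
              have : 0 ≤ M * (k + 1) * δ := by positivity
              nlinarith
          _ ≤ C * (Q * δ ^ α) := by
              refine mul_le_mul_of_nonneg_left (rpow_scale hQ1 hδ hα1) (by linarith)
          _ = _ := by ring
      have h2 : ‖gg k b j x' y' z'‖ ≤ (C * Q) * δ ^ α := by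
        by_cases hg' : gg k b j x' y' z' = 0
        · rw [hg', norm_zero]
          positivity
        have hm' := mu_lip k hy hzz
        have hm'0 := mu_pos_of_gg hg'
        calc ‖gg k b j x' y' z'‖ ≤ ‖rf k b j y' z' / pf k b y' z'‖ := norm_G_le _ _ _ _
          _ ≤ C * mu k y' z' ^ α := H x' y' z' hx' hz' hg'
          _ ≤ C * (Q * δ) ^ α := by
              refine mul_le_mul_of_nonneg_left ?_ (by linarith)
              refine Real.rpow_le_rpow hm'0.le ?_ hα0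
              rw [hQ]
              have h3 : (k + 1) * δ ≤ M * (k + 1) * δ := by
                have : 0 ≤ (k + 1) * δ := by positivity
                nlinarith
              nlinarith
          _ ≤ C * (Q * δ ^ α) := by
              refine mul_le_mul_of_nonneg_left (rpow_scale hQ1 hδ hα1) (by linarith)
          _ = _ := by ring
      have h3 : 0 ≤ (C * Q) * δ ^ α := by positivity
      have h4 := norm_sub_le (gg k b j x y z) (gg k b j x' y' z')
      have h5 : 0 ≤ 1 / 2 * ‖x - x'‖ := by positivity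
      linarith
  refine ⟨r0, hr0, hr01, 19 * C * Q, by nlinarith, ?_⟩
  intro x x' y y' z z' δ hx hx' hz hz' hy hzz
  have hδ : 0 ≤ δ := (norm_nonneg _).trans hy
  by_cases hg : gg k b j x y z = 0
  · by_cases hg' : gg k b j x' y' z' = 0
    · rw [hg, hg', sub_zero, norm_zero]
      have : 0 ≤ δ ^ α := Real.rpow_nonneg hδ α
      positivity
    · have := key x' x y' y z' z δ hx' hx hz' hz (by rw [norm_sub_rev]; exact hy)
        (by rw [norm_sub_rev]; exact hzz) hg'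
      rw [norm_sub_rev, norm_sub_rev x x']
      exact this
  · exact key x x' y y' z z' δ hx hx' hz hz' hy hzz hg

end Pool.Agent.ZQ
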