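import Pool.Agent.Hhelper19.ZQ.Hold
import Pool.Agent.Hhelper19.ZQ.Defs

/-!
# The homeomorphisms
-/

namespace Pool.Agent.ZQ

open Finset Filter Topology

/-- The shift as a function of the point. -/
noncomputable def gv (k b j : ℕ) (v : E3) : ℂ := gg k b j (v 0) (v 1) (v 2)

theorem continuous_PP (s : Finset ℕ) : Continuous fun v : E3 => PP s (v 1) (v 2) := by
  unfold PP lf
  fun_prop

theorem continuous_pf (k b : ℕ) : Continuous fun v : E3 => pf k b (v 1) (v 2) := by
  unfold pf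
  exact (continuous_PP _).pow _

theorem continuous_rf (k b j : ℕ) : Continuous fun v : E3 => rf k b j (v 1) (v 2) := by
  unfold rf
  exact ((continuous_apply 2).pow _).mul (((continuous_PP _).pow _).mul (continuous_PP _))

theorem continuous_wf (k b : ℕ) : Continuous fun v : E3 => wf k b (v 2) := by
  unfold wf
  fun_prop

theorem rf_zero {k b j : ℕ} (hb : 1 ≤ b) {y z : ℂ} (h : pf k b y z = 0) : rf k b j y z = 0 := by
  have h1 : PP (range k) y z = 0 := by
    unfold pf at h
    exact pow_eq_zero_iff (by omega) |>.1 h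
  unfold rf
  rw [h1, zero_pow (by omega)]
  ring

theorem continuousAt_gv_of_ne {k b j : ℕ} (hb : 1 ≤ b) {v : E3} (hz : v 2 ≠ 0) :
    ContinuousAt (gv k b j) v := by
  have hw : wf k b (v 2) ≠ 0 := pow_ne_zero _ hz
  have hS : 0 < SS (rf k b j (v 1) (v 2)) (wf k b (v 2)) := by
    unfold SS
    have := norm_nonneg (rf k b j (v 1) (v 2))
    have h2 : 0 < ‖wf k b (v 2)‖ := norm_pos_iff.2 hw
    linarith
  have cS : Continuous fun v : E3 => SS (rf k b j (v 1) (v 2)) (wf k b (v 2)) := by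
    unfold SS
    exact ((continuous_wf k b).norm.div_const 2).add (continuous_const.mul (continuous_rf k b j).norm)
  have cQ : Continuous fun v : E3 => ‖v 0 * pf k b (v 1) (v 2) + wf k b (v 2)‖ :=
    (((continuous_apply 0).mul (continuous_pf k b)).add (continuous_wf k b)).norm
  have ccut : ContinuousAt (fun v : E3 => cut (v 0) (pf k b (v 1) (v 2)) (rf k b j (v 1) (v 2))
      (wf k b (v 2))) v := by
    unfold cut
    exact continuousAt_const.max (continuousAt_const.sub
      (cQ.continuousAt.div cS.continuousAt hS.ne'))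
  by_cases hp : pf k b (v 1) (v 2) = 0
  · have hr := rf_zero (j := j) hb hp
    -- near `v` the cut-off vanishes
    have h1 : SS (rf k b j (v 1) (v 2)) (wf k b (v 2))
        < ‖v 0 * pf k b (v 1) (v 2) + wf k b (v 2)‖ := by
      rw [hp, hr]
      unfold SS
      have h2 : 0 < ‖wf k b (v 2)‖ := norm_pos_iff.2 hw
      simp only [mul_zero, zero_add, norm_zero, add_zero]
      linarith
    have h2 : ∀ᶠ u : E3 in 𝓝 v, SS (rf k b j (u 1) (u 2)) (wf k b (u 2))
        < ‖u 0 * pf k b (u 1) (u 2) + wf k b (u 2)‖ :=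
      cS.continuousAt.eventually_lt cQ.continuousAt h1
    have h3 : ∀ᶠ u : E3 in 𝓝 v, 0 < SS (rf k b j (u 1) (u 2)) (wf k b (u 2)) :=
      continuousAt_const.eventually_lt cS.continuousAt hS
    have h4 : ∀ᶠ u : E3 in 𝓝 v, (0 : ℂ) = gv k b j u := by
      filter_upwards [h2, h3] with u hu hu3
      by_contra hne
      have hg : gg k b j (u 0) (u 1) (u 2) ≠ 0 := fun h => hne h.symm
      have := lt_SS_of_cut_pos hu3 (cut_pos_of_G_ne hg)
      linarith
    have h5 : ContinuousAt (fun _ : E3 => (0 : ℂ)) v := continuousAt_const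
    exact h5.congr h4
  · unfold gv gg G
    have cD : ContinuousAt (fun v : E3 => -(rf k b j (v 1) (v 2) / pf k b (v 1) (v 2))) v :=
      ((continuous_rf k b j).continuousAt.div (continuous_pf k b).continuousAt hp).neg
    exact cD.mul (Complex.continuous_ofReal.continuousAt.comp ccut)

theorem gv_zero_z (k b j : ℕ) {v : E3} (hz : v 2 = 0) : gv k b j v = 0 := by
  unfold gv gg G rf
  rw [hz, zero_pow (by omega)]
  simp

/-- Hoelder estimate near the origin in terms of points. -/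
theorem gv_holder {k b j : ℕ} (hb : 2 ≤ b) (hj : j ≤ k) {X : ℝ} (hX : 1 ≤ X) {α : ℝ}
    (hα0 : 0 ≤ α) (hα1 : α ≤ 1) (hα : α * (b + 3) ≤ b - 1) :
    ∃ r0 : ℝ, 0 < r0 ∧ r0 ≤ 1 ∧ ∃ C : ℝ, 1 ≤ C ∧ ∀ v u : E3,
      ‖v 0‖ ≤ X → ‖u 0‖ ≤ X → ‖v 2‖ ≤ r0 → ‖u 2‖ ≤ r0 →
      ‖gv k b j v - gv k b j u‖ ≤ 1 / 2 * ‖v 0 - u 0‖ + C * ‖v - u‖ ^ α := by
  obtain ⟨r0, h1, h2, C, hC, H⟩ := gg_holder (k := k) (b := b) (j := j) hb hj hX hα0 hα1 hα
  refine ⟨r0, h1, h2, C, hC, ?_⟩
  intro v u hv hu hv2 hu2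
  refine H (v 0) (u 0) (v 1) (u 1) (v 2) (u 2) ‖v - u‖ hv hu hv2 hu2 ?_ ?_
  · rw [norm_sub_rev]; exact norm_le_pi_norm (v - u) 1
  · rw [norm_sub_rev]; exact norm_le_pi_norm (v - u) 2

theorem continuous_gv {k b j : ℕ} (hb : 2 ≤ b) (hj : j ≤ k) : Continuous (gv k b j) := by
  rw [continuous_iff_continuousAt]
  intro v
  by_cases hz : v 2 = 0
  · -- use the Hoelder estimate with a small exponent
    set X : ℝ := ‖v 0‖ + 1 with hXdef
    have hX : 1 ≤ X := by have := norm_nonneg (v 0); linarith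
    set α : ℝ := 1 / ((b : ℝ) + 3) with hαdef
    have hb0 : (2 : ℝ) ≤ b := by exact_mod_cast hb
    have hα0 : 0 < α := by positivity
    have hα1 : α ≤ 1 := by
      rw [hαdef, div_le_one (by positivity)]
      linarith
    have hα : α * (b + 3) ≤ b - 1 := by
      have : α * (b + 3) = 1 := by rw [hαdef]; field_simp
      rw [this]; linarith
    obtain ⟨r0, hr0, hr01, C, hC, H⟩ := gv_holder (k := k) (b := b) (j := j) hb hj hX hα0.le hα1 hα
    have hlim : Tendsto (fun u : E3 => 1 / 2 * ‖v 0 - u 0‖ + C * ‖v - u‖ ^ α) (𝓝 v) (𝓝 0) := by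
      have c1 : Continuous (fun u : E3 => 1 / 2 * ‖v 0 - u 0‖) := by fun_prop
      have c2 : Continuous (fun u : E3 => C * ‖v - u‖ ^ α) := by
        have : Continuous (fun u : E3 => ‖v - u‖) := by fun_prop
        exact continuous_const.mul (this.rpow_const (fun _ => Or.inr hα0.le))
      have c3 : Tendsto (fun u : E3 => 1 / 2 * ‖v 0 - u 0‖ + C * ‖v - u‖ ^ α) (𝓝 v)
          (𝓝 (1 / 2 * ‖v 0 - v 0‖ + C * ‖v - v‖ ^ α)) := (c1.add c2).tendsto v
      simpa [Real.zero_rpow hα0.ne'] using c3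
    have e1 : ∀ᶠ u : E3 in 𝓝 v, ‖u 0‖ ≤ X := by
      have c : Continuous (fun u : E3 => ‖u 0‖) := by fun_prop
      have : ∀ᶠ u : E3 in 𝓝 v, ‖u 0‖ < X :=
        c.continuousAt.eventually_lt continuousAt_const (by rw [hXdef]; linarith)
      exact this.mono fun _ h => h.le
    have e2 : ∀ᶠ u : E3 in 𝓝 v, ‖u 2‖ ≤ r0 := by
      have c : Continuous (fun u : E3 => ‖u 2‖) := by fun_prop
      have : ∀ᶠ u : E3 in 𝓝 v, ‖u 2‖ < r0 :=
        c.continuousAt.eventually_lt continuousAt_const (by rw [hz, norm_zero]; exact hr0)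
      exact this.mono fun _ h => h.le
    rw [ContinuousAt, tendsto_iff_norm_sub_tendsto_zero]
    refine squeeze_zero' (Eventually.of_forall fun _ => norm_nonneg _) ?_ hlim
    filter_upwards [e1, e2] with u h1 h2
    rw [norm_sub_rev]
    exact H v u (by rw [hXdef]; linarith) h1 (by rw [hz, norm_zero]; exact hr0.le) h2
  · exact continuousAt_gv_of_ne (by omega) hz

/-- The fibre equivalence. -/
noncomputable def fib (k b j : ℕ) (y z : ℂ) : ℂ ≃ ℂ :=
  Equiv.ofBijective (fun x => x + gg k b j x y z)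
    (fibre_bijective (pf k b y z) (rf k b j y z) (wf k b z))

theorem fib_apply (k b j : ℕ) (x y z : ℂ) : fib k b j y z x = x + gg k b j x y z := rfl

theorem fib_symm (k b j : ℕ) (x y z : ℂ) :
    (fib k b j y z).symm x + gg k b j ((fib k b j y z).symm x) y z = x :=
  (fib k b j y z).apply_symm_apply x

/-- The map. -/
noncomputable def hf (k b j : ℕ) (v : E3) : E3 := ![v 0 + gv k b j v, v 1, v 2]

/-- The inverse map. -/
noncomputable def hi (k b j : ℕ) (v : E3) : E3 := ![(fib k b j (v 1) (v 2)).symm (v 0), v 1, v 2]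

theorem vec_ext {v u : E3} (h0 : v 0 = u 0) (h1 : v 1 = u 1) (h2 : v 2 = u 2) : v = u := by
  funext i
  fin_cases i
  · exact h0
  · exact h1
  · exact h2

theorem hi_hf (k b j : ℕ) (v : E3) : hi k b j (hf k b j v) = v := by
  refine vec_ext ?_ rfl rfl
  show (fib k b j (v 1) (v 2)).symm (v 0 + gv k b j v) = v 0
  exact (fib k b j (v 1) (v 2)).symm_apply_apply (v 0)

theorem hf_hi (k b j : ℕ) (v : E3) : hf k b j (hi k b j v) = v := by
  refine vec_ext ?_ rfl rfl
  exact fib_symm k b j (v 0) (v 1) (v 2)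

theorem continuous_hf {k b j : ℕ} (hb : 2 ≤ b) (hj : j ≤ k) : Continuous (hf k b j) := by
  rw [continuous_pi_iff]
  intro i
  fin_cases i
  · exact (continuous_apply 0).add (continuous_gv hb hj)
  · exact continuous_apply 1
  · exact continuous_apply 2

/-- The first coordinate of the inverse. -/
theorem hi_first (k b j : ℕ) (v u : E3) :
    ‖hi k b j v 0 - hi k b j u 0‖ ≤ 2 * ‖v 0 - u 0‖
      + 2 * ‖gv k b j ![hi k b j u 0, v 1, v 2] - gv k b j ![hi k b j u 0, u 1, u 2]‖ := by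
  set x := hi k b j v 0 with hx
  set x' := hi k b j u 0 with hx'
  have h1 : x + gg k b j x (v 1) (v 2) = v 0 := fib_symm k b j (v 0) (v 1) (v 2)
  have h2 : x' + gg k b j x' (u 1) (u 2) = u 0 := fib_symm k b j (u 0) (u 1) (u 2)
  have h3 := gg_x k b j x x' (v 1) (v 2)
  have e : x - x' = (v 0 - u 0) - (gg k b j x (v 1) (v 2) - gg k b j x' (v 1) (v 2))
      - (gg k b j x' (v 1) (v 2) - gg k b j x' (u 1) (u 2)) := by
    linear_combination h1 - h2
  have h4 : ‖x - x'‖ ≤ ‖v 0 - u 0‖ + ‖gg k b j x (v 1) (v 2) - gg k b j x' (v 1) (v 2)‖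
      + ‖gg k b j x' (v 1) (v 2) - gg k b j x' (u 1) (u 2)‖ := by
    calc ‖x - x'‖ = ‖(v 0 - u 0) - (gg k b j x (v 1) (v 2) - gg k b j x' (v 1) (v 2))
      - (gg k b j x' (v 1) (v 2) - gg k b j x' (u 1) (u 2))‖ := by rw [← e]
      _ ≤ ‖(v 0 - u 0) - (gg k b j x (v 1) (v 2) - gg k b j x' (v 1) (v 2))‖
        + ‖gg k b j x' (v 1) (v 2) - gg k b j x' (u 1) (u 2)‖ := norm_sub_le _ _
      _ ≤ _ := by
        have := norm_sub_le (v 0 - u 0) (gg k b j x (v 1) (v 2) - gg k b j x' (v 1) (v 2))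
        linarith
  have h5 : gv k b j ![x', v 1, v 2] = gg k b j x' (v 1) (v 2) := rfl
  have h6 : gv k b j ![x', u 1, u 2] = gg k b j x' (u 1) (u 2) := rfl
  rw [h5, h6]
  linarith

theorem continuous_hi {k b j : ℕ} (hb : 2 ≤ b) (hj : j ≤ k) : Continuous (hi k b j) := by
  have c0 : Continuous fun v : E3 => hi k b j v 0 := by
    rw [continuous_iff_continuousAt]
    intro u
    rw [ContinuousAt, tendsto_iff_norm_sub_tendsto_zero]
    have c1 : Continuous fun v : E3 => 2 * ‖v 0 - u 0‖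
        + 2 * ‖gv k b j ![hi k b j u 0, v 1, v 2] - gv k b j ![hi k b j u 0, u 1, u 2]‖ := by
      have c2 : Continuous fun v : E3 => (![hi k b j u 0, v 1, v 2] : E3) := by
        rw [continuous_pi_iff]
        intro i
        fin_cases i
        · exact continuous_const
        · exact continuous_apply 1
        · exact continuous_apply 2
      have c3 := (continuous_gv (j := j) hb hj).comp c2
      exact (continuous_const.mul (((continuous_apply 0).sub continuous_const).norm)).add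
        (continuous_const.mul ((c3.sub continuous_const).norm))
    have c4 := c1.tendsto u
    simp only [sub_self, norm_zero, mul_zero, add_zero] at c4
    refine squeeze_zero (fun _ => norm_nonneg _) (fun v => hi_first k b j v u) c4
  rw [continuous_pi_iff]
  intro i
  fin_cases i
  · exact c0
  · exact continuous_apply 1
  · exact continuous_apply 2

/-- The homeomorphism. -/
noncomputable def hh {k b j : ℕ} (hb : 2 ≤ b) (hj : j ≤ k) : E3 ≃ₜ E3 where
  toFun := hf k b j
  invFun := hi k b j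
  left_inv := hi_hf k b j
  right_inv := hf_hi k b j
  continuous_toFun := continuous_hf hb hj
  continuous_invFun := continuous_hi hb hj

theorem hf_zero (k b j : ℕ) : hf k b j 0 = 0 := by
  refine vec_ext ?_ rfl rfl
  show (0 : ℂ) + gv k b j 0 = 0
  rw [gv_zero_z k b j rfl, add_zero]

/-- The surfaces. -/
def Vj (k b j : ℕ) : Set E3 :=
  {v | v 0 * pf k b (v 1) (v 2) + rf k b j (v 1) (v 2) + wf k b (v 2) = 0}

/-- The base surface. -/
def V0 (k b : ℕ) : Set E3 := {v | v 0 * pf k b (v 1) (v 2) + wf k b (v 2) = 0}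

theorem mem_iff {k b j : ℕ} (hb : 1 ≤ b) (v : E3) : v ∈ V0 k b ↔ hf k b j v ∈ Vj k b j := by
  have e : hf k b j v ∈ Vj k b j ↔ (v 0 + gv k b j v) * pf k b (v 1) (v 2)
      + rf k b j (v 1) (v 2) + wf k b (v 2) = 0 := Iff.rfl
  rw [e]
  by_cases hp : pf k b (v 1) (v 2) = 0
  · have hr := rf_zero (j := j) hb hp
    show v 0 * pf k b (v 1) (v 2) + wf k b (v 2) = 0 ↔ _
    rw [hp, hr]
    simp
  · exact zero_iff _ _ hp (v 0)

/-- Hoelder estimates for the map and its inverse near the origin. -/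
theorem hh_holder {k b j : ℕ} (hb : 2 ≤ b) (hj : j ≤ k) {α : ℝ}
    (hα0 : 0 < α) (hα1 : α ≤ 1) (hα : α * (b + 3) ≤ b - 1) :
    ∃ r : ℝ, 0 < r ∧ ∃ C : ℝ, 0 ≤ C ∧ ∀ p ∈ Metric.ball (0 : E3) r, ∀ q ∈ Metric.ball (0 : E3) r,
      dist (hh hb hj p) (hh hb hj q) ≤ C * dist p q ^ α ∧
      dist ((hh hb hj).symm p) ((hh hb hj).symm q) ≤ C * dist p q ^ α := by
  obtain ⟨r0, hr0, hr01, C, hC, H⟩ :=
    gv_holder (k := k) (b := b) (j := j) hb hj (le_refl (1 : ℝ)) hα0.le hα1 hα
  -- a smaller radius for the inverse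
  have hc : ContinuousAt (hh hb hj).symm 0 := (hh hb hj).symm.continuous.continuousAt
  have h0 : (hh hb hj).symm 0 = 0 := by
    rw [Homeomorph.symm_apply_eq]
    exact (hf_zero k b j).symm
  have hev : ∀ᶠ v : E3 in 𝓝 0, (hh hb hj).symm v ∈ Metric.ball (0 : E3) 1 := by
    have := hc.preimage_mem_nhds (t := Metric.ball (0 : E3) 1)
      (by rw [h0]; exact Metric.ball_mem_nhds _ one_pos)
    exact this
  obtain ⟨r1, hr1, hball⟩ := Metric.eventually_nhds_iff_ball.1 hev
  have hdist1 : ∀ d : ℝ, 0 ≤ d → d ≤ 2 → d ≤ 2 * d ^ α := by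
    intro d hd0 hd2
    rcases eq_or_lt_of_le hd0 with h | h
    · rw [← h, Real.zero_rpow hα0.ne']; simp
    · have h1 : d / 2 ≤ (d / 2) ^ α := by
        calc d / 2 = (d / 2) ^ (1 : ℝ) := (Real.rpow_one _).symm
          _ ≤ (d / 2) ^ α :=
            Real.rpow_le_rpow_of_exponent_ge (by positivity) (by linarith) hα1
      have h2 : (d / 2) ^ α ≤ d ^ α := Real.rpow_le_rpow (by positivity) (by linarith) hα0.le
      linarith
  refine ⟨min r0 r1, lt_min hr0 hr1, 4 * C + 8, by linarith, ?_⟩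
  intro p hp q hq
  have hp0 : ‖p‖ < r0 := by
    have := lt_of_lt_of_le (mem_ball_zero_iff.1 hp) (min_le_left _ _); exact this
  have hq0 : ‖q‖ < r0 := by
    have := lt_of_lt_of_le (mem_ball_zero_iff.1 hq) (min_le_left _ _); exact this
  have hp1 : p ∈ Metric.ball (0 : E3) r1 := Metric.ball_subset_ball (min_le_right _ _) hp
  have hq1 : q ∈ Metric.ball (0 : E3) r1 := Metric.ball_subset_ball (min_le_right _ _) hq
  have hpc : ∀ i, ‖p i‖ < r0 := fun i => lt_of_le_of_lt (norm_le_pi_norm p i) hp0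
  have hqc : ∀ i, ‖q i‖ < r0 := fun i => lt_of_le_of_lt (norm_le_pi_norm q i) hq0
  set d := dist p q with hd
  have hd0 : 0 ≤ d := dist_nonneg
  have hdn : d = ‖p - q‖ := dist_eq_norm p q
  have hd2 : d ≤ 2 := by
    rw [hdn]
    have := norm_sub_le p q
    linarith
  have hcomp : ∀ i, ‖p i - q i‖ ≤ d := fun i => by
    rw [hdn]; exact norm_le_pi_norm (p - q) i
  have hda := hdist1 d hd0 hd2
  have hdα : 0 ≤ d ^ α := Real.rpow_nonneg hd0 α
  have hbound : 0 ≤ (4 * C + 8) * d ^ α := by positivity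
  constructor
  · show dist (hf k b j p) (hf k b j q) ≤ _
    rw [dist_pi_le_iff hbound]
    intro i
    have hi12 : ∀ i : Fin 3, dist (p i) (q i) ≤ (4 * C + 8) * d ^ α := by
      intro i
      rw [dist_eq_norm]
      have := hcomp i
      nlinarith
    fin_cases i
    · show dist (p 0 + gv k b j p) (q 0 + gv k b j q) ≤ _
      rw [dist_eq_norm]
      have h1 := H p q (by linarith [hpc 0]) (by linarith [hqc 0]) (hpc 2).le (hqc 2).le
      have h2 : ‖p 0 + gv k b j p - (q 0 + gv k b j q)‖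
          ≤ ‖p 0 - q 0‖ + ‖gv k b j p - gv k b j q‖ := by
        have e : p 0 + gv k b j p - (q 0 + gv k b j q)
          = (p 0 - q 0) + (gv k b j p - gv k b j q) := by ring
        rw [e]
        exact norm_add_le _ _
      rw [← hdn] at h1
      have h3 := hcomp 0
      nlinarith
    · exact hi12 1
    · exact hi12 2
  · show dist (hi k b j p) (hi k b j q) ≤ _
    rw [dist_pi_le_iff hbound]
    intro i
    have hi12 : ∀ i : Fin 3, dist (p i) (q i) ≤ (4 * C + 8) * d ^ α := by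
      intro i
      rw [dist_eq_norm]
      have := hcomp i
      nlinarith
    fin_cases i
    · show dist (hi k b j p 0) (hi k b j q 0) ≤ _
      rw [dist_eq_norm]
      have h1 := hi_first k b j p q
      have hq' : ‖hi k b j q 0‖ ≤ 1 := by
        have h2 : (hh hb hj).symm q ∈ Metric.ball (0 : E3) 1 := hball q hq1
        have h3 : ‖hi k b j q‖ < 1 := mem_ball_zero_iff.1 h2
        exact (norm_le_pi_norm _ 0).trans h3.le
      have h4 := H ![hi k b j q 0, p 1, p 2] ![hi k b j q 0, q 1, q 2] hq' hq' (hpc 2).le (hqc 2).le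
      have h5 : ‖(![hi k b j q 0, p 1, p 2] : E3) - ![hi k b j q 0, q 1, q 2]‖ ≤ d := by
        rw [pi_norm_le_iff_of_nonneg hd0]
        intro i
        fin_cases i
        · show ‖hi k b j q 0 - hi k b j q 0‖ ≤ d
          rw [sub_self, norm_zero]; exact hd0
        · exact hcomp 1
        · exact hcomp 2
      have h6 : ‖(![hi k b j q 0, p 1, p 2] : E3) - ![hi k b j q 0, q 1, q 2]‖ ^ α ≤ d ^ α :=
        Real.rpow_le_rpow (norm_nonneg _) h5 hα0.le
      have h7 : ‖(![hi k b j q 0, p 1, p 2] : E3) 0 - (![hi k b j q 0, q 1, q 2] : E3) 0‖ = 0 := by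
        show ‖hi k b j q 0 - hi k b j q 0‖ = 0
        rw [sub_self, norm_zero]
      rw [h7] at h4
      have h8 := hcomp 0
      nlinarith
    · exact hi12 1
    · exact hi12 2

end Pool.Agent.ZQ
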