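import Pool.Agent.Hhelper19.ZQ.Top

/-!
# The exceptional varieties are pairwise not homeomorphic
-/

namespace Pool.Agent.ZQ

open Finset Filter Topology

theorem exists_pr (L : P2) : ∃ u : {v : E3 // v ≠ 0}, pr u = L := by
  induction L using Projectivization.ind with
  | h v hv => exact ⟨⟨v, hv⟩, rfl⟩

/-- Membership in the exceptional variety. -/
theorem mem_Z_iff {k b j : ℕ} (hb : 1 ≤ b) (hj1 : 1 ≤ j) (hj : j ≤ k) (L : P2) :
    L ∈ exceptional (Vj k b j) ↔ (∃ i < k, L ∈ Ln i) ∨ L ∈ Cj j := by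
  obtain ⟨u, rfl⟩ := exists_pr L
  rw [mem_exc_iff hj, gj_zero_iff hb hj, mem_Cj_iff hj1]
  simp only [mem_Ln_iff]

theorem isQuotientMap_pr : Topology.IsQuotientMap pr := isQuotientMap_quotient_mk'

theorem continuous_coord (i : Fin 3) : Continuous fun u : {v : E3 // v ≠ 0} => u.1 i :=
  (continuous_apply i).comp continuous_subtype_val

theorem isClosed_Ln (i : ℕ) : IsClosed (Ln i) := by
  rw [← isQuotientMap_pr.isClosed_preimage]
  have : pr ⁻¹' (Ln i) = {u | lf i (u.1 1) (u.1 2) = 0} := by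
    ext u
    exact mem_Ln_iff i u
  rw [this]
  refine isClosed_eq ?_ continuous_const
  exact (continuous_coord 1).sub (continuous_const.mul (continuous_coord 2))

theorem isClosed_Cj {j : ℕ} (hj : 1 ≤ j) : IsClosed (Cj j) := by
  rw [← isQuotientMap_pr.isClosed_preimage]
  have : pr ⁻¹' (Cj j) = {u | u.1 0 * PP (range j) (u.1 1) (u.1 2) + u.1 2 ^ (j + 1) = 0} := by
    ext u
    exact mem_Cj_iff hj u
  rw [this]
  refine isClosed_eq ?_ continuous_const
  have h1 : Continuous fun u : {v : E3 // v ≠ 0} => PP (range j) (u.1 1) (u.1 2) :=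
    (continuous_PP (range j)).comp continuous_subtype_val
  exact ((continuous_coord 0).mul h1).add ((continuous_coord 2).pow _)

/-- The only point with `y = z = 0`. -/
theorem eq_OO {u : {v : E3 // v ≠ 0}} (h1 : u.1 1 = 0) (h2 : u.1 2 = 0) : pr u = OO := by
  refine pr_eq_of (u.1 0) ?_ ?_ ?_
  · show u.1 0 * 1 = u.1 0
    ring
  · show u.1 0 * 0 = u.1 1
    rw [h1]; ring
  · show u.1 0 * 0 = u.1 2
    rw [h2]; ring

theorem Ln_inter_Ln {i i' : ℕ} (h : i ≠ i') {L : P2} (h1 : L ∈ Ln i) (h2 : L ∈ Ln i') :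
    L = OO := by
  obtain ⟨u, rfl⟩ := exists_pr L
  rw [mem_Ln_iff] at h1 h2
  have h3 := norm_lf_sum h (u.1 1) (u.1 2)
  rw [h1, h2, norm_zero, add_zero] at h3
  have hz : u.1 2 = 0 := norm_eq_zero.1 (le_antisymm h3 (norm_nonneg _))
  have hy : u.1 1 = 0 := by
    unfold lf at h1
    rw [hz, mul_zero, sub_zero] at h1
    exact h1
  exact eq_OO hy hz

theorem Ln_inter_Cj {i j : ℕ} (hij : i < j) {L : P2} (h1 : L ∈ Ln i) (h2 : L ∈ Cj j) :
    L = OO := by
  obtain ⟨u, rfl⟩ := exists_pr L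
  rw [mem_Ln_iff] at h1
  rw [mem_Cj_iff (by omega)] at h2
  have hp : PP (range j) (u.1 1) (u.1 2) = 0 := by
    unfold PP
    exact prod_eq_zero (mem_range.2 hij) h1
  rw [hp, mul_zero, zero_add] at h2
  have hz : u.1 2 = 0 := pow_eq_zero_iff (by omega) |>.1 h2
  have hy : u.1 1 = 0 := by
    unfold lf at h1
    rw [hz, mul_zero, sub_zero] at h1
    exact h1
  exact eq_OO hy hz

/-- The point `(0 : 1 : 0)` of the curve. -/
theorem q20_mem (j : ℕ) : q2 j 0 ∈ Cj j \ {OO} := by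
  refine ⟨Or.inr ⟨0, rfl⟩, ?_⟩
  intro h
  obtain ⟨a, ha, h0, h1, h2⟩ := exists_of_pr_eq (show q2 j 0 = OO from h)
  have h1' : a * 0 = PP (range j) 1 0 := h1
  rw [PP_one_zero, mul_zero] at h1'
  exact zero_ne_one h1'

/-- The common point of the curve and of a line which is not tangent to it. -/
theorem q1_mem {i j : ℕ} (hij : j ≤ i) : q1 j i ∈ (Cj j \ {OO}) ∩ (Ln i \ {OO}) := by
  have hp : PP (range j) (i : ℂ) 1 ≠ 0 := by
    unfold PP
    refine prod_ne_zero_iff.2 fun i' hi' => ?_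
    unfold lf
    rw [mul_one, sub_ne_zero]
    have : i ≠ i' := by have := mem_range.1 hi'; omega
    exact_mod_cast this
  have hO : q1 j i ∉ ({OO} : Set P2) := by
    intro h
    obtain ⟨a, ha, h0, h1, h2⟩ := exists_of_pr_eq (show q1 j i = OO from h)
    have h2' : a * 0 = PP (range j) (i : ℂ) 1 := h2
    rw [mul_zero] at h2'
    exact hp h2'.symm
  refine ⟨⟨Or.inl ⟨i, rfl⟩, hO⟩, ⟨?_, hO⟩⟩
  unfold q1
  rw [mem_Ln_iff]
  show lf i ((i : ℂ) * PP (range j) (i : ℂ) 1) (PP (range j) (i : ℂ) 1) = 0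
  unfold lf
  ring

/-- A finite closed partition gives a continuous index function. -/
theorem exists_index {Y : Type*} [TopologicalSpace Y] {n : ℕ} (A : Fin n → Set Y)
    (hcl : ∀ i, IsClosed (A i)) (hcov : ∀ y, ∃ i, y ∈ A i)
    (hdis : ∀ i i' y, y ∈ A i → y ∈ A i' → i = i') (hne : ∀ i, ∃ y, y ∈ A i) :
    ∃ c : Y → Fin n, Continuous c ∧ Function.Surjective c := by
  choose c hc using hcov
  refine ⟨c, ?_, ?_⟩
  · refine (locallyFinite_of_finite A).continuous ?_ hcl ?_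
    · ext y
      simp only [Set.mem_iUnion, Set.mem_univ, iff_true]
      exact ⟨c y, hc y⟩
    · intro i
      refine continuousOn_const.congr (f := fun _ => i) ?_
      intro y hy
      exact hdis _ _ y (hc y) hy
  · intro i
    obtain ⟨y, hy⟩ := hne i
    exact ⟨y, hdis _ _ y (hc y) hy⟩

/-- The part of the exceptional variety which is connected after the removal of the special
point. -/
def Bj (k j : ℕ) : Set P2 := Cj j ∪ ⋃ i ∈ Set.Ico j k, Ln i

theorem isClosed_Bj (k : ℕ) {j : ℕ} (hj : 1 ≤ j) : IsClosed (Bj k j) := by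
  refine (isClosed_Cj hj).union ?_
  refine Set.Finite.isClosed_biUnion (Set.finite_Ico j k) fun i _ => isClosed_Ln i

theorem mem_Bj_iff {k j : ℕ} {L : P2} : L ∈ Bj k j ↔ L ∈ Cj j ∨ ∃ i, j ≤ i ∧ i < k ∧ L ∈ Ln i := by
  unfold Bj
  simp only [Set.mem_union, Set.mem_iUnion, Set.mem_Ico, exists_prop, and_assoc]

theorem Ln_inter_Bj {i j k : ℕ} (hij : i < j) {L : P2} (h1 : L ∈ Ln i) (h2 : L ∈ Bj k j) :
    L = OO := by
  rcases mem_Bj_iff.1 h2 with h | ⟨i', h3, _, h4⟩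
  · exact Ln_inter_Cj hij h1 h
  · exact Ln_inter_Ln (by omega) h1 h4

/-- A point of the line different from the special point. -/
theorem l10_mem (i : ℕ) : l1 i 0 ∈ Ln i \ {OO} := by
  refine ⟨Or.inl ⟨0, rfl⟩, ?_⟩
  intro h
  obtain ⟨a, ha, h0, h1, h2⟩ := exists_of_pr_eq (show l1 i 0 = OO from h)
  have h2' : a * 0 = (1 : ℂ) := h2
  rw [mul_zero] at h2'
  exact zero_ne_one h2'

theorem Bj_preconn (k j : ℕ) : IsPreconnected (Bj k j \ {OO}) := by
  have e : Bj k j \ {OO} = ⋃ s : Option (Set.Ico j k),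
      (Cj j \ {OO} ∪ match s with
        | none => ∅
        | some i => Ln i.1 \ {OO}) := by
    ext L
    simp only [Set.mem_iUnion, Option.exists, Set.mem_union, Set.mem_sdiff, Set.mem_empty_iff_false,
      or_false, Set.mem_singleton_iff]
    constructor
    · rintro ⟨h, hO⟩
      rcases mem_Bj_iff.1 h with h1 | ⟨i, h3, h4, h5⟩
      · exact Or.inl ⟨h1, hO⟩
      · exact Or.inr ⟨⟨i, h3, h4⟩, Or.inr ⟨h5, hO⟩⟩
    · rintro (⟨h, hO⟩ | ⟨i, ⟨h, hO⟩ | ⟨h, hO⟩⟩)
      · exact ⟨mem_Bj_iff.2 (Or.inl h), hO⟩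
      · exact ⟨mem_Bj_iff.2 (Or.inl h), hO⟩
      · exact ⟨mem_Bj_iff.2 (Or.inr ⟨i.1, i.2.1, i.2.2, h⟩), hO⟩
  rw [e]
  refine isPreconnected_iUnion ⟨q2 j 0, ?_⟩ ?_
  · exact Set.mem_iInter.2 fun s => Or.inl (q20_mem j)
  · rintro (_ | i)
    · simpa using Cj_preconn j OO
    · have h := q1_mem i.2.1
      exact (Cj_preconn j OO).union' ⟨_, h⟩ (Ln_preconn i.1 OO)

end Pool.Agent.ZQ
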