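import Pool.Agent.Hhelper19.ZQ.Count

/-!
# The polynomials
-/

namespace Pool.Agent.ZQ

open Finset MvPolynomial

/-- Linear form. -/
noncomputable def lp (i : ℕ) : MvPolynomial (Fin 3) ℂ := X 1 - C (i : ℂ) * X 2

/-- Product of linear forms. -/
noncomputable def Pp (s : Finset ℕ) : MvPolynomial (Fin 3) ℂ := ∏ i ∈ s, lp i

/-- The coefficient of the first variable. -/
noncomputable def fp (k b : ℕ) : MvPolynomial (Fin 3) ℂ := Pp (range k) ^ (b + 1)

/-- The rest. -/
noncomputable def gp (k b j : ℕ) : MvPolynomial (Fin 3) ℂ :=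
  X 2 ^ (j + 1) * (Pp (range k) ^ b * Pp (Ico j k)) + X 2 ^ (k * (b + 1) + 2)

/-- The polynomial. -/
noncomputable def Fp (k b j : ℕ) : MvPolynomial (Fin 3) ℂ := fp k b * X 0 + gp k b j

theorem eval_lp (i : ℕ) (v : E3) : eval v (lp i) = lf i (v 1) (v 2) := by
  unfold lp lf
  simp

theorem eval_Pp (s : Finset ℕ) (v : E3) : eval v (Pp s) = PP s (v 1) (v 2) := by
  unfold Pp PP
  rw [map_prod]
  exact prod_congr rfl fun i _ => eval_lp i v

theorem eval_gp (k b j : ℕ) (v : E3) :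
    eval v (gp k b j) = rf k b j (v 1) (v 2) + wf k b (v 2) := by
  unfold gp rf wf
  simp only [map_add, map_mul, map_pow, eval_X, eval_Pp]

theorem eval_Fp (k b j : ℕ) (v : E3) :
    eval v (Fp k b j) = v 0 * pf k b (v 1) (v 2) + rf k b j (v 1) (v 2) + wf k b (v 2) := by
  unfold Fp fp pf
  simp only [map_add, map_mul, map_pow, eval_X, eval_Pp, eval_gp]
  ring

theorem zeroSet_Fp (k b j : ℕ) : zeroSet (Fp k b j) = Vj k b j := by
  ext v
  show eval v (Fp k b j) = 0 ↔ _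
  rw [eval_Fp]
  rfl

theorem eval_Fp_zero (k b j : ℕ) : eval 0 (Fp k b j) = 0 := by
  rw [eval_Fp]
  show (0 : ℂ) * pf k b 0 0 + rf k b j 0 0 + wf k b 0 = 0
  unfold rf wf
  rw [zero_pow (by omega), zero_pow (by omega)]
  ring

/-! ### Irreducibility -/

theorem vars_lp (i : ℕ) : (0 : Fin 3) ∉ (lp i).vars := by
  intro h
  have h1 : (lp i).vars ⊆ (X 1 : MvPolynomial (Fin 3) ℂ).vars
      ∪ (C (i : ℂ) * X 2 : MvPolynomial (Fin 3) ℂ).vars := vars_sub_subset _
  rcases mem_union.1 (h1 h) with h2 | h2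
  · rw [vars_X] at h2
    exact absurd (mem_singleton.1 h2) (by decide)
  · have h3 := vars_mul _ _ h2
    rw [vars_C, empty_union, vars_X] at h3
    exact absurd (mem_singleton.1 h3) (by decide)

theorem vars_Pp (s : Finset ℕ) : (0 : Fin 3) ∉ (Pp s).vars := by
  intro h
  have h1 := vars_prod (s := s) lp h
  simp only [mem_biUnion] at h1
  obtain ⟨i, _, hi⟩ := h1
  exact vars_lp i hi

theorem notMem_mul {f g : MvPolynomial (Fin 3) ℂ} (hf : (0 : Fin 3) ∉ f.vars)
    (hg : (0 : Fin 3) ∉ g.vars) : (0 : Fin 3) ∉ (f * g).vars := by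
  intro h
  rcases mem_union.1 (vars_mul _ _ h) with h1 | h1
  · exact hf h1
  · exact hg h1

theorem notMem_pow {f : MvPolynomial (Fin 3) ℂ} (hf : (0 : Fin 3) ∉ f.vars) (n : ℕ) :
    (0 : Fin 3) ∉ (f ^ n).vars := fun h => hf (vars_pow _ _ h)

theorem vars_X2 : (0 : Fin 3) ∉ (X 2 : MvPolynomial (Fin 3) ℂ).vars := by
  rw [vars_X]
  intro h
  exact absurd (mem_singleton.1 h) (by decide)

theorem vars_gp (k b j : ℕ) : (0 : Fin 3) ∉ (gp k b j).vars := by
  intro h
  rcases mem_union.1 (vars_add_subset _ _ h) with h1 | h1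
  · exact notMem_mul (notMem_pow vars_X2 _) (notMem_mul (notMem_pow (vars_Pp _) _) (vars_Pp _)) h1
  · exact notMem_pow vars_X2 _ h1

theorem irreducible_lp (i : ℕ) : Irreducible (lp i) := by
  have h : lp i = 1 * X 1 + (-(C (i : ℂ) * X 2)) := by unfold lp; ring
  rw [h]
  refine irreducible_mul_X_add _ _ _ one_ne_zero ?_ ?_ isRelPrime_one_left
  · rw [vars_one]; exact notMem_empty _
  · rw [vars_neg]
    intro h3
    have h3 := vars_mul _ _ h3
    rw [vars_C, empty_union, vars_X] at h3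
    exact absurd (mem_singleton.1 h3) (by decide)

theorem lp_not_dvd {k b j i : ℕ} (hb : 1 ≤ b) (hi : i < k) : ¬ lp i ∣ gp k b j := by
  rintro ⟨q, hq⟩
  have h1 := congrArg (eval (![0, (i : ℂ), 1] : E3)) hq
  rw [map_mul, eval_lp, eval_gp] at h1
  have h2 : lf i ((![0, (i : ℂ), 1] : E3) 1) ((![0, (i : ℂ), 1] : E3) 2) = 0 := by
    show (i : ℂ) - (i : ℂ) * 1 = 0
    ring
  have h3 : PP (range k) ((![0, (i : ℂ), 1] : E3) 1) ((![0, (i : ℂ), 1] : E3) 2) = 0 := by
    unfold PP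
    exact prod_eq_zero (mem_range.2 hi) h2
  have h4 : rf k b j ((![0, (i : ℂ), 1] : E3) 1) ((![0, (i : ℂ), 1] : E3) 2) = 0 := by
    unfold rf
    rw [h3, zero_pow (by omega)]
    ring
  rw [h2, h4, zero_mul, zero_add] at h1
  have h5 : wf k b ((![0, (i : ℂ), 1] : E3) 2) = 1 := by
    show (1 : ℂ) ^ _ = 1
    exact one_pow _
  rw [h5] at h1
  exact one_ne_zero h1

theorem irreducible_Fp {k b j : ℕ} (hb : 1 ≤ b) : Irreducible (Fp k b j) := by
  unfold Fp
  refine irreducible_mul_X_add _ _ _ ?_ (notMem_pow (vars_Pp _) _) (vars_gp k b j) ?_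
  · refine pow_ne_zero _ (prod_ne_zero_iff.2 fun i _ => (irreducible_lp i).ne_zero)
  · refine IsRelPrime.pow_left ?_
    refine IsRelPrime.prod_left fun i hi => ?_
    exact (irreducible_lp i).isRelPrime_iff_not_dvd.2 (lp_not_dvd hb (mem_range.1 hi))

/-! ### Multiplicity -/

theorem hom_lp (i : ℕ) : (lp i).IsHomogeneous 1 := by
  unfold lp
  refine (isHomogeneous_X ℂ 1).sub ?_
  have := (isHomogeneous_C (Fin 3) (i : ℂ)).mul (isHomogeneous_X ℂ (2 : Fin 3))
  simpa using this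

theorem hom_Pp (s : Finset ℕ) : (Pp s).IsHomogeneous s.card := by
  have := IsHomogeneous.prod s lp (fun _ => 1) (fun i _ => hom_lp i)
  unfold Pp
  simpa using this

/-- The initial form. -/
noncomputable def Ip (k b j : ℕ) : MvPolynomial (Fin 3) ℂ :=
  fp k b * X 0 + X 2 ^ (j + 1) * (Pp (range k) ^ b * Pp (Ico j k))

theorem Fp_eq (k b j : ℕ) : Fp k b j = Ip k b j + X 2 ^ (k * (b + 1) + 2) := by
  unfold Fp Ip gp
  ring

theorem hom_Ip {k b j : ℕ} (hj : j ≤ k) : (Ip k b j).IsHomogeneous (k * (b + 1) + 1) := by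
  unfold Ip fp
  refine IsHomogeneous.add ?_ ?_
  · have h1 := ((hom_Pp (range k)).pow (b + 1)).mul (isHomogeneous_X ℂ (0 : Fin 3))
    rwa [card_range] at h1
  · have h2 := ((isHomogeneous_X ℂ (2 : Fin 3)).pow (j + 1)).mul
      (((hom_Pp (range k)).pow b).mul (hom_Pp (Ico j k)))
    rw [card_range, Nat.card_Ico] at h2
    have e : 1 * (j + 1) + (k * b + (k - j)) = k * (b + 1) + 1 := by
      have : k * (b + 1) = k * b + k := by ring
      omega
    rwa [e] at h2

theorem Ip_ne {k b j : ℕ} : Ip k b j ≠ 0 := by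
  intro h
  have h1 := congrArg (eval (![1, 1, 0] : E3)) h
  unfold Ip fp at h1
  simp only [map_add, map_mul, map_pow, eval_X, eval_Pp, map_zero] at h1
  have h2 : PP (range k) ((![1, 1, 0] : E3) 1) ((![1, 1, 0] : E3) 2) = 1 := PP_one_zero k
  rw [h2] at h1
  have h3 : (![1, 1, 0] : E3) 0 = 1 := rfl
  have h4 : (![1, 1, 0] : E3) 2 = 0 := rfl
  rw [h3, h4, zero_pow (by omega), one_pow, one_mul, zero_mul, add_zero] at h1
  exact one_ne_zero h1

theorem mult_Fp {k b j : ℕ} (hj : j ≤ k) :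
    (∀ d < k * (b + 1) + 1, homogeneousComponent d (Fp k b j) = 0) ∧
      homogeneousComponent (k * (b + 1) + 1) (Fp k b j) ≠ 0 := by
  have h1 := hom_Ip (b := b) hj
  have h2 : (X 2 ^ (k * (b + 1) + 2) : MvPolynomial (Fin 3) ℂ).IsHomogeneous
      (k * (b + 1) + 2) := by
    have := (isHomogeneous_X ℂ (2 : Fin 3)).pow (k * (b + 1) + 2)
    simpa using this
  have key : ∀ d, homogeneousComponent d (Fp k b j)
      = (if d = k * (b + 1) + 1 then Ip k b j else 0)
        + (if d = k * (b + 1) + 2 then X 2 ^ (k * (b + 1) + 2) else 0) := by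
    intro d
    rw [Fp_eq, map_add, homogeneousComponent_of_mem h1, homogeneousComponent_of_mem h2]
  constructor
  · intro d hd
    rw [key, if_neg (by omega), if_neg (by omega), add_zero]
  · rw [key, if_pos rfl, if_neg (by omega), add_zero]
    exact Ip_ne

end Pool.Agent.ZQ
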