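import Mathlib

/-!
# The cut-off shift

For complex numbers `x, p, r, w` we put `S = |w| / 2 + 2 |r|` and
`G x p r w = - (r / p) * max 0 (1 - |x p + w| / S)`.
It is a shift of the point `x` which moves the zero of `x p + w` to the zero of `x p + r + w`.
-/

namespace Pool.Agent.ZQ

/-- The radius of the cut-off (multiplied by `|p|`). -/
noncomputable def SS (r w : ℂ) : ℝ := ‖w‖ / 2 + 2 * ‖r‖

/-- The cut-off factor. -/
noncomputable def cut (x p r w : ℂ) : ℝ := max 0 (1 - ‖x * p + w‖ / SS r w)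

/-- The cut-off shift. -/
noncomputable def G (x p r w : ℂ) : ℂ := -(r / p) * (cut x p r w : ℂ)

theorem SS_nonneg (r w : ℂ) : 0 ≤ SS r w := by unfold SS; positivity

theorem norm_r_le (r w : ℂ) : ‖r‖ ≤ SS r w / 2 := by
  unfold SS
  have := norm_nonneg w
  linarith

theorem norm_w_le (r w : ℂ) : ‖w‖ ≤ 2 * SS r w := by
  unfold SS
  have := norm_nonneg r
  linarith

theorem cut_nonneg (x p r w : ℂ) : 0 ≤ cut x p r w := le_max_left _ _

theorem cut_le_one (x p r w : ℂ) : cut x p r w ≤ 1 := by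
  unfold cut
  have h : 0 ≤ ‖x * p + w‖ / SS r w := div_nonneg (norm_nonneg _) (SS_nonneg r w)
  exact max_le zero_le_one (by linarith)

theorem norm_G (x p r w : ℂ) : ‖G x p r w‖ = ‖r / p‖ * cut x p r w := by
  unfold G
  rw [norm_mul, norm_neg, Complex.norm_real, Real.norm_of_nonneg (cut_nonneg _ _ _ _)]

theorem norm_G_le (x p r w : ℂ) : ‖G x p r w‖ ≤ ‖r / p‖ := by
  rw [norm_G]
  exact mul_le_of_le_one_right (norm_nonneg _) (cut_le_one _ _ _ _)

theorem cut_pos_of_G_ne {x p r w : ℂ} (h : G x p r w ≠ 0) : 0 < cut x p r w := by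
  rcases lt_or_eq_of_le (cut_nonneg x p r w) with h1 | h1
  · exact h1
  · exact absurd (by unfold G; rw [← h1]; simp) h

theorem r_ne_of_G_ne {x p r w : ℂ} (h : G x p r w ≠ 0) : r ≠ 0 := by
  rintro rfl
  exact h (by unfold G; simp)

theorem p_ne_of_G_ne {x p r w : ℂ} (h : G x p r w ≠ 0) : p ≠ 0 := by
  rintro rfl
  exact h (by unfold G; simp)

theorem SS_pos_of_r {r : ℂ} (w : ℂ) (h : r ≠ 0) : 0 < SS r w := by
  unfold SS
  have := norm_nonneg w
  have h2 : 0 < ‖r‖ := norm_pos_iff.2 h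
  linarith

theorem lt_SS_of_cut_pos {x p r w : ℂ} (hS : 0 < SS r w) (h : 0 < cut x p r w) :
    ‖x * p + w‖ < SS r w := by
  unfold cut at h
  rcases lt_max_iff.1 h with h1 | h1
  · exact absurd h1 (lt_irrefl _)
  · have h2 : ‖x * p + w‖ / SS r w < 1 := by linarith
    rwa [div_lt_one hS] at h2

/-- On the support of the shift. -/
theorem norm_w_le_of_G_ne {x p r w : ℂ} (h : G x p r w ≠ 0) :
    ‖w‖ ≤ 2 * ‖p‖ * (‖x‖ + 2 * ‖r / p‖) := by
  have hr := r_ne_of_G_ne h
  have hp := p_ne_of_G_ne h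
  have hS := SS_pos_of_r w hr
  have h1 := lt_SS_of_cut_pos hS (cut_pos_of_G_ne h)
  have h2 : ‖w‖ ≤ ‖x * p + w‖ + ‖x * p‖ := by
    have : w = (x * p + w) - x * p := by ring
    calc ‖w‖ = ‖(x * p + w) - x * p‖ := by rw [← this]
      _ ≤ _ := norm_sub_le _ _
  have hpp : 0 < ‖p‖ := norm_pos_iff.2 hp
  rw [norm_mul] at h2
  unfold SS at h1
  have h3 : ‖p‖ * ‖r / p‖ = ‖r‖ := by
    rw [norm_div]; field_simp
  nlinarith [h3]

/-- The shift is `1/2`-Lipschitz in `x`. -/
theorem G_lipschitz (x x' p r w : ℂ) : ‖G x p r w - G x' p r w‖ ≤ 1 / 2 * ‖x - x'‖ := by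
  by_cases hr : r = 0
  · subst hr
    simp [G]
  by_cases hp : p = 0
  · subst hp
    simp [G]
  have hS := SS_pos_of_r w hr
  have hpp : 0 < ‖p‖ := norm_pos_iff.2 hp
  have h1 : G x p r w - G x' p r w = -(r / p) * ((cut x p r w - cut x' p r w : ℝ) : ℂ) := by
    unfold G; push_cast; ring
  have h2 : |cut x p r w - cut x' p r w| ≤ ‖p‖ * ‖x - x'‖ / SS r w := by
    have h3 : |cut x p r w - cut x' p r w|
        ≤ |(1 - ‖x * p + w‖ / SS r w) - (1 - ‖x' * p + w‖ / SS r w)| := by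
      unfold cut
      have := abs_max_sub_max_le_abs (1 - ‖x * p + w‖ / SS r w) (1 - ‖x' * p + w‖ / SS r w) 0
      rw [max_comm 0, max_comm 0]
      exact this
    refine h3.trans ?_
    have h4 : (1 - ‖x * p + w‖ / SS r w) - (1 - ‖x' * p + w‖ / SS r w)
        = (‖x' * p + w‖ - ‖x * p + w‖) / SS r w := by ring
    rw [h4, abs_div, abs_of_pos hS]
    refine div_le_div_of_nonneg_right ?_ hS.le
    refine (abs_norm_sub_norm_le _ _).trans ?_
    have h5 : (x' * p + w) - (x * p + w) = p * (x' - x) := by ring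
    rw [h5, norm_mul, norm_sub_rev]
  rw [h1, norm_mul, norm_neg, Complex.norm_real, Real.norm_eq_abs]
  calc ‖r / p‖ * |cut x p r w - cut x' p r w| ≤ ‖r / p‖ * (‖p‖ * ‖x - x'‖ / SS r w) :=
        mul_le_mul_of_nonneg_left h2 (norm_nonneg _)
    _ = (‖r‖ / SS r w) * ‖x - x'‖ := by rw [norm_div]; field_simp
    _ ≤ 1 / 2 * ‖x - x'‖ := by
        refine mul_le_mul_of_nonneg_right ?_ (norm_nonneg _)
        rw [div_le_iff₀ hS]
        have := norm_r_le r w
        linarith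

/-- The main difference estimate: parameters which are relatively close. -/
theorem G_diff {x x' p r w p' r' w' : ℂ} {η : ℝ} (hη0 : 0 ≤ η) (hη : η ≤ 1 / 4)
    (h : G x p r w ≠ 0)
    (hp' : ‖p' - p‖ ≤ η * ‖p‖) (hr' : ‖r' - r‖ ≤ η * ‖r‖) (hw' : ‖w' - w‖ ≤ η * ‖w‖) :
    ‖G x p r w - G x' p' r' w'‖ ≤ 1 / 2 * ‖x - x'‖ + 19 * η * ‖r / p‖ := by
  have hr := r_ne_of_G_ne h
  have hp := p_ne_of_G_ne h
  have hS := SS_pos_of_r w hr
  have hpp : 0 < ‖p‖ := norm_pos_iff.2 hp
  have hrr : 0 < ‖r‖ := norm_pos_iff.2 hr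
  have hv := lt_SS_of_cut_pos hS (cut_pos_of_G_ne h)
  have hp1 : (1 - η) * ‖p‖ ≤ ‖p'‖ := by
    have : ‖p‖ ≤ ‖p'‖ + ‖p' - p‖ := by
      have h1 : p = p' - (p' - p) := by ring
      calc ‖p‖ = ‖p' - (p' - p)‖ := by rw [← h1]
        _ ≤ _ := norm_sub_le _ _
    nlinarith
  have hpp' : 0 < ‖p'‖ := by nlinarith
  have hr1 : ‖r‖ ≤ ‖r'‖ + ‖r' - r‖ := by
    have h1 : r = r' - (r' - r) := by ring
    calc ‖r‖ = ‖r' - (r' - r)‖ := by rw [← h1]
      _ ≤ _ := norm_sub_le _ _
  have hr2 : ‖r'‖ ≤ ‖r‖ + ‖r' - r‖ := by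
    have h1 : r' = r + (r' - r) := by ring
    calc ‖r'‖ = ‖r + (r' - r)‖ := by rw [← h1]
      _ ≤ _ := norm_add_le _ _
  have hw1 : ‖w‖ ≤ ‖w'‖ + ‖w' - w‖ := by
    have h1 : w = w' - (w' - w) := by ring
    calc ‖w‖ = ‖w' - (w' - w)‖ := by rw [← h1]
      _ ≤ _ := norm_sub_le _ _
  have hw2 : ‖w'‖ ≤ ‖w‖ + ‖w' - w‖ := by
    have h1 : w' = w + (w' - w) := by ring
    calc ‖w'‖ = ‖w + (w' - w)‖ := by rw [← h1]
      _ ≤ _ := norm_add_le _ _
  have hSS1 : SS r w ≤ SS r' w' + η * SS r w := by unfold SS; nlinarith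
  have hSS2 : SS r' w' ≤ SS r w + η * SS r w := by unfold SS; nlinarith
  have hS'1 : 3 / 4 * SS r w ≤ SS r' w' := by nlinarith
  have hS' : 0 < SS r' w' := by linarith
  have hSabs : |SS r' w' - SS r w| ≤ η * SS r w := by
    rw [abs_le]; constructor <;> linarith
  -- the quotient
  have hD : ‖r' / p' - r / p‖ ≤ 3 * η * ‖r / p‖ := by
    have hp'0 : p' ≠ 0 := norm_pos_iff.1 hpp'
    have e : r' / p' - r / p = ((r' - r) * p - r * (p' - p)) / (p' * p) := by
      field_simp; ring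
    rw [e, norm_div, norm_mul, norm_div, div_le_iff₀ (by positivity)]
    have h1 : ‖(r' - r) * p - r * (p' - p)‖ ≤ 2 * η * (‖r‖ * ‖p‖) := by
      refine (norm_sub_le _ _).trans ?_
      rw [norm_mul, norm_mul]
      nlinarith [mul_le_mul_of_nonneg_right hr' hpp.le, mul_le_mul_of_nonneg_left hp' hrr.le]
    refine h1.trans ?_
    have h2 : 3 * η * (‖r‖ / ‖p‖) * (‖p'‖ * ‖p‖) = 3 * η * (‖r‖ * ‖p'‖) := by field_simp
    rw [h2]
    have h3 : 3 / 4 * ‖p‖ ≤ ‖p'‖ := by nlinarith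
    have h4 : 0 ≤ η * ‖r‖ := by positivity
    nlinarith [mul_le_mul_of_nonneg_left h3 h4]
  have hD2 : ‖r' / p'‖ ≤ 2 * ‖r / p‖ := by
    have h1 : ‖r' / p'‖ ≤ ‖r / p‖ + ‖r' / p' - r / p‖ := by
      have e : r' / p' = r / p + (r' / p' - r / p) := by ring
      calc ‖r' / p'‖ = ‖r / p + (r' / p' - r / p)‖ := by rw [← e]
        _ ≤ _ := norm_add_le _ _
    have h2 := norm_nonneg (r / p)
    nlinarith
  -- the arguments of the cut-off
  have hQ : ‖(x * p + w) - (x' * p' + w')‖ ≤ ‖x - x'‖ * ‖p'‖ + 5 * η * SS r w := by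
    have e : (x * p + w) - (x' * p' + w') = (x - x') * p' - x * (p' - p) - (w' - w) := by ring
    rw [e]
    have h1 : ‖x‖ * ‖p‖ ≤ 3 * SS r w := by
      have h2 : x * p = (x * p + w) - w := by ring
      calc ‖x‖ * ‖p‖ = ‖(x * p + w) - w‖ := by rw [← norm_mul, ← h2]
        _ ≤ ‖x * p + w‖ + ‖w‖ := norm_sub_le _ _
        _ ≤ 3 * SS r w := by have := norm_w_le r w; linarith
    have h3 : ‖x * (p' - p)‖ ≤ 3 * η * SS r w := by
      rw [norm_mul]
      nlinarith [mul_le_mul_of_nonneg_left hp' (norm_nonneg x)]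
    have h4 : ‖w' - w‖ ≤ 2 * η * SS r w := by
      have := norm_w_le r w
      nlinarith
    calc ‖(x - x') * p' - x * (p' - p) - (w' - w)‖
        ≤ ‖(x - x') * p'‖ + ‖x * (p' - p)‖ + ‖w' - w‖ := by
          refine (norm_sub_le _ _).trans ?_
          gcongr
          exact norm_sub_le _ _
      _ ≤ _ := by rw [norm_mul]; linarith
  have hvv : |cut x p r w - cut x' p' r' w'| ≤ (‖x - x'‖ * ‖p'‖) / SS r' w' + 8 * η := by
    have h3 : |cut x p r w - cut x' p' r' w'|
        ≤ |(1 - ‖x * p + w‖ / SS r w) - (1 - ‖x' * p' + w'‖ / SS r' w')| := by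
      unfold cut
      have := abs_max_sub_max_le_abs (1 - ‖x * p + w‖ / SS r w)
        (1 - ‖x' * p' + w'‖ / SS r' w') 0
      rw [max_comm 0, max_comm 0]
      exact this
    refine h3.trans ?_
    have h4 : (1 - ‖x * p + w‖ / SS r w) - (1 - ‖x' * p' + w'‖ / SS r' w')
        = (‖x' * p' + w'‖ - ‖x * p + w‖) / SS r' w'
          - (‖x * p + w‖ / SS r w) * (SS r' w' - SS r w) / SS r' w' := by
      field_simp
      ring
    rw [h4]
    have h5 : |(‖x' * p' + w'‖ - ‖x * p + w‖) / SS r' w'|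
        ≤ (‖x - x'‖ * ‖p'‖) / SS r' w' + (5 * η * SS r w) / SS r' w' := by
      rw [abs_div, abs_of_pos hS', ← add_div]
      refine div_le_div_of_nonneg_right ?_ hS'.le
      refine (abs_norm_sub_norm_le _ _).trans ?_
      rw [norm_sub_rev]
      exact hQ
    have h6 : |(‖x * p + w‖ / SS r w) * (SS r' w' - SS r w) / SS r' w'|
        ≤ (η * SS r w) / SS r' w' := by
      rw [abs_div, abs_of_pos hS', abs_mul]
      refine div_le_div_of_nonneg_right ?_ hS'.le
      have h7 : |‖x * p + w‖ / SS r w| ≤ 1 := by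
        rw [abs_of_nonneg (div_nonneg (norm_nonneg _) hS.le), div_le_one hS]
        exact hv.le
      calc |‖x * p + w‖ / SS r w| * |SS r' w' - SS r w| ≤ 1 * (η * SS r w) := by
            gcongr
        _ = _ := one_mul _
    have h8 : (5 * η * SS r w) / SS r' w' + (η * SS r w) / SS r' w' ≤ 8 * η := by
      rw [← add_div, div_le_iff₀ hS']
      nlinarith
    calc |(‖x' * p' + w'‖ - ‖x * p + w‖) / SS r' w'
          - (‖x * p + w‖ / SS r w) * (SS r' w' - SS r w) / SS r' w'|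
        ≤ |(‖x' * p' + w'‖ - ‖x * p + w‖) / SS r' w'|
          + |(‖x * p + w‖ / SS r w) * (SS r' w' - SS r w) / SS r' w'| := abs_sub _ _
      _ ≤ _ := by linarith
  -- conclusion
  have e : G x p r w - G x' p' r' w'
      = (r' / p' - r / p) * ((cut x p r w : ℝ) : ℂ)
        - (r' / p') * ((cut x p r w - cut x' p' r' w' : ℝ) : ℂ) := by
    unfold G; push_cast; ring
  rw [e]
  have h1 : ‖(r' / p' - r / p) * ((cut x p r w : ℝ) : ℂ)‖ ≤ 3 * η * ‖r / p‖ := by
    rw [norm_mul, Complex.norm_real, Real.norm_of_nonneg (cut_nonneg _ _ _ _)]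
    calc _ ≤ (3 * η * ‖r / p‖) * 1 :=
          mul_le_mul hD (cut_le_one _ _ _ _) (cut_nonneg _ _ _ _) (by positivity)
      _ = _ := mul_one _
  have h2 : ‖(r' / p') * ((cut x p r w - cut x' p' r' w' : ℝ) : ℂ)‖
      ≤ 1 / 2 * ‖x - x'‖ + 16 * η * ‖r / p‖ := by
    rw [norm_mul, Complex.norm_real, Real.norm_eq_abs]
    calc ‖r' / p'‖ * |cut x p r w - cut x' p' r' w'|
        ≤ ‖r' / p'‖ * ((‖x - x'‖ * ‖p'‖) / SS r' w' + 8 * η) :=
          mul_le_mul_of_nonneg_left hvv (norm_nonneg _)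
      _ = (‖r'‖ / SS r' w') * ‖x - x'‖ + 8 * η * ‖r' / p'‖ := by
          rw [norm_div]; field_simp
      _ ≤ 1 / 2 * ‖x - x'‖ + 8 * η * (2 * ‖r / p‖) := by
          have h9 : ‖r'‖ / SS r' w' ≤ 1 / 2 := by
            rw [div_le_iff₀ hS']
            have := norm_r_le r' w'
            linarith
          exact add_le_add (mul_le_mul_of_nonneg_right h9 (norm_nonneg _))
            (mul_le_mul_of_nonneg_left hD2 (by positivity))
      _ = _ := by ring
  calc _ ≤ _ := norm_sub_le _ _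
    _ ≤ 3 * η * ‖r / p‖ + (1 / 2 * ‖x - x'‖ + 16 * η * ‖r / p‖) := add_le_add h1 h2
    _ = _ := by ring

/-- The fibre maps are bijective. -/
theorem fibre_bijective (p r w : ℂ) : Function.Bijective (fun x => x + G x p r w) := by
  constructor
  · intro x x' h
    have h1 := G_lipschitz x x' p r w
    have h2 : x - x' = -(G x p r w - G x' p r w) := by
      have : x + G x p r w = x' + G x' p r w := h
      linear_combination this
    have h3 : ‖x - x'‖ ≤ 1 / 2 * ‖x - x'‖ := by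
      calc ‖x - x'‖ = ‖G x p r w - G x' p r w‖ := by rw [h2, norm_neg]
        _ ≤ _ := h1
    have h4 : ‖x - x'‖ = 0 := le_antisymm (by linarith) (norm_nonneg _)
    exact sub_eq_zero.1 (norm_eq_zero.1 h4)
  · intro c
    have hc : ContractingWith (1 / 2) (fun x => c - G x p r w) := by
      refine ⟨by rw [← NNReal.coe_lt_coe]; push_cast; norm_num, ?_⟩
      refine LipschitzWith.of_dist_le_mul fun x x' => ?_
      rw [dist_eq_norm, dist_eq_norm]
      have : (c - G x p r w) - (c - G x' p r w) = -(G x p r w - G x' p r w) := by ring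
      rw [this, norm_neg]
      simpa using G_lipschitz x x' p r w
    refine ⟨hc.fixedPoint _, ?_⟩
    have h := hc.fixedPoint_isFixedPt
    have h2 : c - G (ContractingWith.fixedPoint _ hc) p r w = ContractingWith.fixedPoint _ hc := h
    show ContractingWith.fixedPoint _ hc + G (ContractingWith.fixedPoint _ hc) p r w = c
    linear_combination -h2

/-- The shift moves the zero of `x p + w` to the zero of `x p + r + w`. -/
theorem G_at_zero {x p r w : ℂ} (hp : p ≠ 0) (hx : x * p + w = 0) :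
    (x + G x p r w) * p + r + w = 0 := by
  by_cases hr : r = 0
  · subst hr
    simp [G, hx]
  have hS := SS_pos_of_r w hr
  have hc : cut x p r w = 1 := by
    unfold cut
    rw [hx]
    simp
  unfold G
  rw [hc]
  push_cast
  field_simp
  linear_combination hx

theorem zero_iff {p : ℂ} (r w : ℂ) (hp : p ≠ 0) (x : ℂ) :
    x * p + w = 0 ↔ (x + G x p r w) * p + r + w = 0 := by
  constructor
  · exact G_at_zero hp
  · intro h
    have h1 : (-w / p) * p + w = 0 := by field_simp; ring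
    have h2 := G_at_zero (r := r) hp h1
    have h3 : x + G x p r w = (-w / p) + G (-w / p) p r w := by
      have h4 : (x + G x p r w) * p = ((-w / p) + G (-w / p) p r w) * p := by
        linear_combination h - h2
      exact mul_right_cancel₀ hp h4
    have h5 : x = -w / p := (fibre_bijective p r w).1 h3
    rw [h5]
    exact h1

end Pool.Agent.ZQ
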