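import Pool.Agent.Hhelper19.ZQ.Exc

/-!
# Connectedness: the exceptional varieties are not homeomorphic
-/

namespace Pool.Agent.ZQ

open Finset Filter Topology

/-- Two charts: a rational curve minus a point is preconnected. -/
theorem preconn_two_charts {Y : Type*} [TopologicalSpace Y] {f1 f2 : ℂ → Y}
    (c1 : Continuous f1) (c2 : Continuous f2) (h12 : ∀ t : ℂ, t ≠ 0 → f1 t = f2 t⁻¹) (P : Y)
    (h1 : {t | f1 t = P}.Countable) (h2 : {t | f2 t = P}.Countable) :
    IsPreconnected ((Set.range f1 ∪ Set.range f2) \ {P}) := by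
  have hrank : 1 < Module.rank ℝ ℂ := by rw [Complex.rank_real_complex]; norm_num
  have p1 : IsPreconnected (f1 '' {t | f1 t = P}ᶜ) :=
    (h1.isPathConnected_compl_of_one_lt_rank hrank).isConnected.isPreconnected.image _
      c1.continuousOn
  have p2 : IsPreconnected (f2 '' {t | f2 t = P}ᶜ) :=
    (h2.isPathConnected_compl_of_one_lt_rank hrank).isConnected.isPreconnected.image _
      c2.continuousOn
  have e : (Set.range f1 ∪ Set.range f2) \ {P} = f1 '' {t | f1 t = P}ᶜ ∪ f2 '' {t | f2 t = P}ᶜ := by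
    ext y
    constructor
    · rintro ⟨h | h, hy⟩
      · obtain ⟨t, rfl⟩ := h
        exact Or.inl ⟨t, hy, rfl⟩
      · obtain ⟨t, rfl⟩ := h
        exact Or.inr ⟨t, hy, rfl⟩
    · rintro (⟨t, ht, rfl⟩ | ⟨t, ht, rfl⟩)
      · exact ⟨Or.inl ⟨t, rfl⟩, ht⟩
      · exact ⟨Or.inr ⟨t, rfl⟩, ht⟩
  rw [e]
  obtain ⟨t, ht⟩ := ((h1.union (Set.countable_singleton (0 : ℂ))).dense_compl ℝ).nonempty
  have ht1 : f1 t ≠ P := fun h => ht (Or.inl h)
  have ht0 : t ≠ 0 := fun h => ht (Or.inr h)
  refine p1.union (f1 t) ⟨t, ht1, rfl⟩ ?_ p2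
  rw [h12 t ht0]
  refine ⟨t⁻¹, ?_, rfl⟩
  intro h
  apply ht1
  rw [h12 t ht0]
  exact h

/-- The comparison lemma. -/
theorem card_le_of_cover {Y : Type*} [TopologicalSpace Y] {Q : Y} {n m : ℕ}
    (c : {y : Y // y ≠ Q} → Fin n) (hc : Continuous c) (hs : Function.Surjective c)
    (T : Fin m → Set Y) (hT : ∀ i, IsPreconnected (T i)) (hQ : ∀ i, Q ∉ T i)
    (hcov : ∀ y, y ≠ Q → ∃ i, y ∈ T i) : n ≤ m := by
  choose f hf using hs
  choose g hg using fun b : Fin n => hcov (f b).1 (f b).2
  have hinj : Function.Injective g := by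
    intro b b' hbb
    have h1 := hg b
    have h2 := hg b'
    rw [← hbb] at h2
    have hpre : IsPreconnected ((Subtype.val : {y : Y // y ≠ Q} → Y) ⁻¹' (T (g b))) := by
      refine (Topology.IsEmbedding.subtypeVal.isInducing.isPreconnected_image).1 ?_
      have e : (Subtype.val : {y : Y // y ≠ Q} → Y) '' ((Subtype.val : {y : Y // y ≠ Q} → Y) ⁻¹'
          (T (g b))) = T (g b) := by
        ext y
        constructor
        · rintro ⟨z, hz, rfl⟩
          exact hz
        · intro hy
          exact ⟨⟨y, fun h => hQ (g b) (h ▸ hy)⟩, hy, rfl⟩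
      rw [e]
      exact hT _
    have h3 := hpre.constant (f := c) hc.continuousOn h1 h2
    rw [hf, hf] at h3
    exact h3
  simpa using Fintype.card_le_of_injective g hinj

/-! ### Charts -/

theorem ne0_of_0 {v : E3} (h : v 0 ≠ 0) : v ≠ 0 := fun h' => h (by rw [h']; rfl)
theorem ne0_of_1 {v : E3} (h : v 1 ≠ 0) : v ≠ 0 := fun h' => h (by rw [h']; rfl)
theorem ne0_of_2 {v : E3} (h : v 2 ≠ 0) : v ≠ 0 := fun h' => h (by rw [h']; rfl)

/-- Equality in the plane from proportionality. -/
theorem pr_eq_of {v w : {v : E3 // v ≠ 0}} (a : ℂ) (h0 : a * w.1 0 = v.1 0)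
    (h1 : a * w.1 1 = v.1 1) (h2 : a * w.1 2 = v.1 2) : pr v = pr w := by
  have ha : a ≠ 0 := by
    rintro rfl
    apply v.2
    refine vec_ext ?_ ?_ ?_
    · rw [← h0, zero_mul]; rfl
    · rw [← h1, zero_mul]; rfl
    · rw [← h2, zero_mul]; rfl
  rw [pr_eq_iff]
  refine ⟨Units.mk0 a ha, ?_⟩
  exact vec_ext h0 h1 h2

theorem exists_of_pr_eq {v w : {v : E3 // v ≠ 0}} (h : pr v = pr w) :
    ∃ a : ℂ, a ≠ 0 ∧ a * w.1 0 = v.1 0 ∧ a * w.1 1 = v.1 1 ∧ a * w.1 2 = v.1 2 := by
  obtain ⟨a, ha⟩ := (pr_eq_iff _ _).1 h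
  refine ⟨a, a.ne_zero, ?_, ?_, ?_⟩
  · rw [← ha]; rfl
  · rw [← ha]; rfl
  · rw [← ha]; rfl

theorem continuous_mk {f : ℂ → E3} (hf : Continuous f) (h : ∀ t, f t ≠ 0) :
    Continuous fun t => pr ⟨f t, h t⟩ :=
  continuous_pr.comp (hf.subtype_mk h)

theorem continuous_vec {f0 f1 f2 : ℂ → ℂ} (h0 : Continuous f0) (h1 : Continuous f1)
    (h2 : Continuous f2) : Continuous fun t => (![f0 t, f1 t, f2 t] : E3) := by
  rw [continuous_pi_iff]
  intro i
  fin_cases i
  · exact h0
  · exact h1
  · exact h2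

/-- The special point. -/
noncomputable def OO : P2 := pr ⟨![1, 0, 0], ne0_of_0 (by simp)⟩

/-- First chart of the line. -/
noncomputable def l1 (i : ℕ) (t : ℂ) : P2 := pr ⟨![t, i, 1], ne0_of_2 (by simp)⟩

/-- Second chart of the line. -/
noncomputable def l2 (i : ℕ) (t : ℂ) : P2 := pr ⟨![1, i * t, t], ne0_of_0 (by simp)⟩

/-- The line. -/
def Ln (i : ℕ) : Set P2 := Set.range (l1 i) ∪ Set.range (l2 i)

theorem l12 (i : ℕ) (t : ℂ) (ht : t ≠ 0) : l1 i t = l2 i t⁻¹ := by
  refine pr_eq_of t ?_ ?_ ?_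
  · show t * 1 = t
    ring
  · show t * (i * t⁻¹) = i
    field_simp
  · show t * t⁻¹ = 1
    field_simp

theorem l1_inj (i : ℕ) : Function.Injective (l1 i) := by
  intro t t' h
  obtain ⟨a, _, h0, _, h2⟩ := exists_of_pr_eq h
  have h2' : a * 1 = (1 : ℂ) := h2
  have h0' : a * t' = t := h0
  rw [mul_one] at h2'
  rw [h2', one_mul] at h0'
  exact h0'.symm

theorem l2_inj (i : ℕ) : Function.Injective (l2 i) := by
  intro t t' h
  obtain ⟨a, _, h0, _, h2⟩ := exists_of_pr_eq h
  have h0' : a * 1 = (1 : ℂ) := h0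
  have h2' : a * t' = t := h2
  rw [mul_one] at h0'
  rw [h0', one_mul] at h2'
  exact h2'.symm

theorem Ln_preconn (i : ℕ) (P : P2) : IsPreconnected (Ln i \ {P}) := by
  refine preconn_two_charts ?_ ?_ (l12 i) P ?_ ?_
  · exact continuous_mk (continuous_vec continuous_id continuous_const continuous_const) _
  · exact continuous_mk (continuous_vec continuous_const (continuous_const.mul continuous_id)
      continuous_id) _
  · refine Set.Subsingleton.countable ?_
    intro t ht t' ht'
    exact l1_inj i (ht.trans ht'.symm)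
  · refine Set.Subsingleton.countable ?_
    intro t ht t' ht'
    exact l2_inj i (ht.trans ht'.symm)

theorem OO_mem_Ln (i : ℕ) : OO ∈ Ln i := by
  refine Or.inr ⟨0, ?_⟩
  refine pr_eq_of 1 ?_ ?_ ?_
  · show (1 : ℂ) * 1 = 1
    ring
  · show (1 : ℂ) * 0 = i * 0
    ring
  · show (1 : ℂ) * 0 = 0
    ring

theorem mem_Ln_iff (i : ℕ) (u : {v : E3 // v ≠ 0}) : pr u ∈ Ln i ↔ lf i (u.1 1) (u.1 2) = 0 := by
  constructor
  · rintro (⟨t, h⟩ | ⟨t, h⟩)
    · obtain ⟨a, _, h0, h1, h2⟩ := exists_of_pr_eq h.symm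
      have h1' : a * (i : ℂ) = u.1 1 := h1
      have h2' : a * 1 = u.1 2 := h2
      unfold lf
      rw [← h1', ← h2']
      ring
    · obtain ⟨a, _, h0, h1, h2⟩ := exists_of_pr_eq h.symm
      have h1' : a * ((i : ℂ) * t) = u.1 1 := h1
      have h2' : a * t = u.1 2 := h2
      unfold lf
      rw [← h1', ← h2']
      ring
  · intro h
    have h1 : u.1 1 = i * u.1 2 := sub_eq_zero.1 h
    by_cases h2 : u.1 2 = 0
    · have h3 : u.1 1 = 0 := by rw [h1, h2, mul_zero]
      refine Or.inr ⟨0, ?_⟩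
      have h0 : u.1 0 ≠ 0 := by
        intro h0
        exact u.2 (vec_ext h0 h3 h2)
      refine (pr_eq_of (u.1 0) ?_ ?_ ?_).symm
      · show u.1 0 * 1 = u.1 0
        ring
      · show u.1 0 * (i * 0) = u.1 1
        rw [h3]; ring
      · show u.1 0 * 0 = u.1 2
        rw [h2]; ring
    · refine Or.inl ⟨u.1 0 / u.1 2, ?_⟩
      refine (pr_eq_of (u.1 2) ?_ ?_ ?_).symm
      · show u.1 2 * (u.1 0 / u.1 2) = u.1 0
        field_simp
      · show u.1 2 * i = u.1 1
        rw [h1]; ring
      · show u.1 2 * 1 = u.1 2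
        ring

/-! ### The rational curve -/

theorem PP_one_zero (j : ℕ) : PP (range j) 1 0 = 1 := by
  unfold PP lf
  refine prod_eq_one fun i _ => ?_
  ring

theorem PP_j_zero {j : ℕ} (y : ℂ) : PP (range j) y 0 = y ^ j := by
  unfold PP lf
  simp

/-- First chart of the curve. -/
noncomputable def q1 (j : ℕ) (t : ℂ) : P2 :=
  pr ⟨![-1, t * PP (range j) t 1, PP (range j) t 1], ne0_of_0 (by simp)⟩

theorem q2_ne (j : ℕ) (t : ℂ) :
    (![-t ^ (j + 1), PP (range j) 1 t, t * PP (range j) 1 t] : E3) ≠ 0 := by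
  by_cases ht : t = 0
  · subst ht
    refine ne0_of_1 ?_
    show PP (range j) 1 0 ≠ 0
    rw [PP_one_zero]
    exact one_ne_zero
  · refine ne0_of_0 ?_
    show -t ^ (j + 1) ≠ 0
    exact neg_ne_zero.2 (pow_ne_zero _ ht)

/-- Second chart of the curve. -/
noncomputable def q2 (j : ℕ) (t : ℂ) : P2 := pr ⟨_, q2_ne j t⟩

/-- The curve. -/
def Cj (j : ℕ) : Set P2 := Set.range (q1 j) ∪ Set.range (q2 j)

theorem q12 (j : ℕ) (t : ℂ) (ht : t ≠ 0) : q1 j t = q2 j t⁻¹ := by
  have h : PP (range j) t 1 = t ^ j * PP (range j) 1 t⁻¹ := by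
    have := PP_smul (range j) t 1 t⁻¹
    rw [mul_one, mul_inv_cancel₀ ht, card_range] at this
    exact this
  refine pr_eq_of (t ^ (j + 1)) ?_ ?_ ?_
  · show t ^ (j + 1) * (-t⁻¹ ^ (j + 1)) = -1
    rw [inv_pow]
    field_simp
  · show t ^ (j + 1) * PP (range j) 1 t⁻¹ = t * PP (range j) t 1
    rw [h]; ring
  · show t ^ (j + 1) * (t⁻¹ * PP (range j) 1 t⁻¹) = PP (range j) t 1
    rw [h, pow_succ]
    field_simp

theorem finite_roots1 (j : ℕ) : {t : ℂ | PP (range j) t 1 = 0}.Finite := by
  refine (((range j).image fun i : ℕ => (i : ℂ)).finite_toSet).subset ?_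
  intro t ht
  have ht' : PP (range j) t 1 = 0 := ht
  unfold PP at ht'
  obtain ⟨i, hi, h⟩ := prod_eq_zero_iff.1 ht'
  simp only [coe_image, Set.mem_image]
  refine ⟨i, hi, ?_⟩
  unfold lf at h
  rw [mul_one] at h
  exact (sub_eq_zero.1 h).symm

theorem finite_roots2 (j : ℕ) : {t : ℂ | PP (range j) 1 t = 0}.Finite := by
  refine (((range j).image fun i : ℕ => (i : ℂ)⁻¹).finite_toSet).subset ?_
  intro t ht
  have ht' : PP (range j) 1 t = 0 := ht
  unfold PP at ht'
  obtain ⟨i, hi, h⟩ := prod_eq_zero_iff.1 ht'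
  simp only [coe_image, Set.mem_image]
  refine ⟨i, hi, ?_⟩
  unfold lf at h
  have h1 : (i : ℂ) * t = 1 := (sub_eq_zero.1 h).symm
  exact inv_eq_of_mul_eq_one_right h1

theorem Cj_preconn (j : ℕ) (P : P2) : IsPreconnected (Cj j \ {P}) := by
  have cP1 : Continuous fun t : ℂ => PP (range j) t 1 := by unfold PP lf; fun_prop
  have cP2 : Continuous fun t : ℂ => PP (range j) 1 t := by unfold PP lf; fun_prop
  refine preconn_two_charts ?_ ?_ (q12 j) P ?_ ?_
  · exact continuous_mk (continuous_vec continuous_const (continuous_id.mul cP1) cP1) _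
  · exact continuous_mk (continuous_vec ((continuous_id.pow _).neg) cP2
      (continuous_id.mul cP2)) _
  · by_cases hne : ∃ t0, q1 j t0 = P
    · obtain ⟨t0, ht0⟩ := hne
      refine (((finite_roots1 j).union (Set.finite_singleton t0)).subset ?_).countable
      intro t ht
      have h : q1 j t = q1 j t0 := (show q1 j t = P from ht).trans ht0.symm
      obtain ⟨a, _, h0, h1, h2⟩ := exists_of_pr_eq h
      have h0' : a * (-1) = (-1 : ℂ) := h0
      have ha : a = 1 := by linear_combination -h0'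
      have h1' : a * (t0 * PP (range j) t0 1) = t * PP (range j) t 1 := h1
      have h2' : a * PP (range j) t0 1 = PP (range j) t 1 := h2
      rw [ha, one_mul] at h1' h2'
      by_cases hr : PP (range j) t 1 = 0
      · exact Or.inl hr
      · right
        rw [h2'] at h1'
        exact (mul_right_cancel₀ hr h1').symm
    · push Not at hne
      have : {t | q1 j t = P} = ∅ := by
        ext t
        simp only [Set.mem_ofPred_eq, Set.mem_empty_iff_false, iff_false]
        exact hne t
      rw [this]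
      exact Set.countable_empty
  · by_cases hne : ∃ t0, q2 j t0 = P
    · obtain ⟨t0, ht0⟩ := hne
      refine (((finite_roots2 j).union (Set.finite_singleton t0)).subset ?_).countable
      intro t ht
      have h : q2 j t = q2 j t0 := (show q2 j t = P from ht).trans ht0.symm
      obtain ⟨a, _, h0, h1, h2⟩ := exists_of_pr_eq h
      have h1' : a * PP (range j) 1 t0 = PP (range j) 1 t := h1
      have h2' : a * (t0 * PP (range j) 1 t0) = t * PP (range j) 1 t := h2
      by_cases hr : PP (range j) 1 t = 0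
      · exact Or.inl hr
      · right
        have h3 : t0 * PP (range j) 1 t = t * PP (range j) 1 t := by
          rw [← h2', ← h1']; ring
        exact (mul_right_cancel₀ hr h3).symm
    · push Not at hne
      have : {t | q2 j t = P} = ∅ := by
        ext t
        simp only [Set.mem_ofPred_eq, Set.mem_empty_iff_false, iff_false]
        exact hne t
      rw [this]
      exact Set.countable_empty

theorem mem_Cj_iff {j : ℕ} (hj : 1 ≤ j) (u : {v : E3 // v ≠ 0}) :
    pr u ∈ Cj j ↔ u.1 0 * PP (range j) (u.1 1) (u.1 2) + u.1 2 ^ (j + 1) = 0 := by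
  constructor
  · rintro (⟨t, h⟩ | ⟨t, h⟩)
    · obtain ⟨a, _, h0, h1, h2⟩ := exists_of_pr_eq h.symm
      have h0' : a * (-1) = u.1 0 := h0
      have h1' : a * (t * PP (range j) t 1) = u.1 1 := h1
      have h2' : a * PP (range j) t 1 = u.1 2 := h2
      set p := PP (range j) t 1 with hp
      have e : PP (range j) (u.1 1) (u.1 2) = (a * p) ^ j * p := by
        have := PP_smul (range j) (a * p) t 1
        rw [card_range] at this
        rw [← h1', ← h2', ← this]
        congr 1 <;> ring
      rw [e, ← h0', ← h2']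
      ring
    · obtain ⟨a, _, h0, h1, h2⟩ := exists_of_pr_eq h.symm
      have h0' : a * (-t ^ (j + 1)) = u.1 0 := h0
      have h1' : a * PP (range j) 1 t = u.1 1 := h1
      have h2' : a * (t * PP (range j) 1 t) = u.1 2 := h2
      set p := PP (range j) 1 t with hp
      have e : PP (range j) (u.1 1) (u.1 2) = (a * p) ^ j * p := by
        have := PP_smul (range j) (a * p) 1 t
        rw [card_range] at this
        rw [← h1', ← h2', ← this]
        congr 1 <;> ring
      rw [e, ← h0', ← h2']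
      ring
  · intro h
    by_cases hp : PP (range j) (u.1 1) (u.1 2) = 0
    · -- the special point
      have h2 : u.1 2 = 0 := by
        rw [hp, mul_zero, zero_add] at h
        exact pow_eq_zero_iff (by omega) |>.1 h
      have h1 : u.1 1 = 0 := by
        rw [h2, PP_j_zero] at hp
        exact pow_eq_zero_iff (by omega) |>.1 hp
      have h0 : u.1 0 ≠ 0 := by
        intro h0
        exact u.2 (vec_ext h0 h1 h2)
      have hz : PP (range j) 0 1 = 0 := by
        unfold PP
        refine prod_eq_zero (mem_range.2 (show 0 < j by omega)) ?_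
        unfold lf
        simp
      refine Or.inl ⟨0, (pr_eq_of (-u.1 0) ?_ ?_ ?_).symm⟩
      · show -u.1 0 * (-1) = u.1 0
        ring
      · show -u.1 0 * (0 * PP (range j) 0 1) = u.1 1
        rw [h1]; ring
      · show -u.1 0 * PP (range j) 0 1 = u.1 2
        rw [h2, hz]; ring
    · by_cases h2 : u.1 2 = 0
      · have h0 : u.1 0 = 0 := by
          rw [h2, zero_pow (by omega), add_zero] at h
          rw [h2] at hp
          exact (mul_eq_zero.1 h).resolve_right hp
        refine Or.inr ⟨0, (pr_eq_of (u.1 1) ?_ ?_ ?_).symm⟩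
        · show u.1 1 * (-0 ^ (j + 1)) = u.1 0
          rw [h0, zero_pow (by omega)]; ring
        · show u.1 1 * PP (range j) 1 0 = u.1 1
          rw [PP_one_zero]; ring
        · show u.1 1 * (0 * PP (range j) 1 0) = u.1 2
          rw [h2]; ring
      · set t := u.1 1 / u.1 2 with ht
        have hu1 : u.1 1 = u.1 2 * t := by rw [ht]; field_simp
        have e : PP (range j) (u.1 1) (u.1 2) = u.1 2 ^ j * PP (range j) t 1 := by
          have := PP_smul (range j) (u.1 2) t 1
          rw [card_range, mul_one] at this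
          rw [hu1, this]
        rw [e] at hp h
        have hpt : PP (range j) t 1 ≠ 0 := fun h' => hp (by rw [h', mul_zero])
        refine Or.inl ⟨t, (pr_eq_of (u.1 2 / PP (range j) t 1) ?_ ?_ ?_).symm⟩
        · show u.1 2 / PP (range j) t 1 * (-1) = u.1 0
          have h3 : u.1 2 ^ j * (u.1 0 * PP (range j) t 1 + u.1 2) = 0 := by
            linear_combination h
          have h4 := (mul_eq_zero.1 h3).resolve_left (pow_ne_zero _ h2)
          field_simp
          linear_combination -h4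
        · show u.1 2 / PP (range j) t 1 * (t * PP (range j) t 1) = u.1 1
          rw [hu1]; field_simp
        · show u.1 2 / PP (range j) t 1 * PP (range j) t 1 = u.1 2
          field_simp

end Pool.Agent.ZQ
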